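import Pool.Agent.H66.IV.Col
import Pool.Agent.H66.UX.LEO

/-!
# LOC (MP_8f2e1c), Julia set = sphere: the fields of THEOREM LOC from the line fields, general form

`sfx_pl`: the fields in the chart where `0`, `1`, `∞` are fixed. `mns_fix`: a minimal piece with a critical point contains no fixed points. `sfxl_g`: as `sfxl_of` (H66/IV/Loc), fixed points in the post-critical set are allowed.
-/

set_option autoImplicit false

open Filter Topology Polynomial Metric Set MeasureTheory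

namespace Pool.Agent.H66.IV

open Pool.Agent.H44.Fatou (rat rat_continuous rat_coe rat_coe_of_ne pt crit_coe)
open Pool.Agent.H56.HR (FS EqAt)
open Pool.Agent.H32.BT Pool.Agent.H79.Eul Pool.Agent.H79.Par
open Pool.Agent.H35.EX Pool.Agent.H44.RR Pool.Agent.H44.RC Pool.Agent.H47.RJ
open Pool.Agent.H47.NN Pool.Agent.H44.ND Pool.Agent.H79.ES Pool.Agent.H44.TH
open Pool.Agent.H64.NC Pool.Agent.H61.TT Pool.Agent.H57.CP Pool.Agent.H3.NC
open Pool.Agent.H64.JS (KJ kj_inv kj_sub)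
open Pool.Agent.H64.TP (KK)
open Pool.Agent.H66.UX (UP leo_s)
open Pool.Agent.H78.UX (oU)
open Pool.Agent.H66.UP (VelP vel_s)
open Pool.Agent.H66.IL (SFX TT sdm v_inj)
open Pool.Agent.H56.END (MnS)
open Pool.Agent.H56.SPH (SFXl)

variable {d : ℕ} {v : E d}

theorem sfx_pl (hd : 2 ≤ d) (hcop : IsCoprime (pol v.1) (pol v.2)) (hdeg : max (pol v.1).natDegree (pol v.2).natDegree = d)
    (hup : ¬ Up v) (hJ : JS (Rf v) = univ) (h0 : Rf v ((0 : ℂ) : OnePoint ℂ) = ((0 : ℂ) : OnePoint ℂ))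
    (h1 : Rf v ((1 : ℂ) : OnePoint ℂ) = ((1 : ℂ) : OnePoint ℂ)) (hi : Rf v OnePoint.infty = OnePoint.infty)
    {ν : ℂ → ℂ} (hm : Measurable ν) {C0 : ℝ} (hbν : ∀ z, ‖ν z‖ ≤ C0)
    (hinv : ∀ᵐ z : ℂ, (pol v.2).eval z ≠ 0 → ν (gg (pol v.1) (pol v.2) z) * (starRingEnd ℂ) (Pool.Agent.H61.TT.dg (pol v.1) (pol v.2) z) =
      ν z * Pool.Agent.H61.TT.dg (pol v.1) (pol v.2) z)
    {A : Set ℂ} (hA : MeasurableSet A) (hAp : 0 < volume {z ∈ A | ν z ≠ 0}) :
    ∃ (E : Set ℂ) (Y h μ : Fin (2 * d + 1) → ℂ → ℂ) (i0 : Fin (2 * d + 1)) (b0 : ℝ),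
      SFX (gg (pol v.1) (pol v.2)) (UP (pol v.2)) E (2 * d + 1) Y h μ i0 b0 ∧ E ⊆ A := by
  have hbn : pol v.2 ≠ 0 := by
    intro hb
    rw [hb, isCoprime_zero_right] at hcop
    rw [hb, natDegree_zero, natDegree_eq_zero_of_isUnit hcop] at hdeg
    simp at hdeg
    omega
  obtain ⟨Vn, hVn⟩ : ∃ V : ℕ → ℂ → ℂ, ∀ j ≤ 2 * d, VelP (pol v.1) (pol v.2) (X ^ j) (V j) := by
    have h2 : ∀ j : ℕ, ∃ V : ℂ → ℂ, j ≤ 2 * d → VelP (pol v.1) (pol v.2) (X ^ j) V := fun j => by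
      by_cases hj : j ≤ 2 * d
      · obtain ⟨V, hV⟩ := vel_s hd hcop hdeg hup hJ h0 h1 hi (η := X ^ j) ((natDegree_X_pow_le _).trans hj)
        exact ⟨V, fun _ => hV⟩
      · exact ⟨0, fun h => absurd h hj⟩
    choose V hV using h2
    exact ⟨V, hV⟩
  obtain ⟨c0, hc0⟩ := uni hd hcop hdeg hup hJ hi hVn hm hbν hinv
  obtain ⟨V, hVe⟩ : ∃ V : Fin (2 * d + 1) → ℂ → ℂ, V = fun i : Fin (2 * d + 1) => Vn (i : ℕ) := ⟨_, rfl⟩
  have hV : ∀ i : Fin (2 * d + 1), VelP (pol v.1) (pol v.2) (X ^ (i : ℕ)) (V i) := fun i => by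
    rw [hVe]
    exact hVn i (by have := i.2; omega)
  have hcV : ∀ z, Vp ν z = ∑ i : Fin (2 * d + 1), c0 (i : ℕ) * V i z := fun z => by
    rw [hc0 z, Finset.sum_range, hVe]
  obtain ⟨C1, hC1⟩ : ∃ C : ℝ, ∀ i z, ‖V i z‖ ≤ C * (1 + ‖z‖ ^ 2) := by
    choose B hB using fun i => (hV i).2.2.2
    refine ⟨∑ i, |B i|, fun i z => (hB i z).trans ?_⟩
    have h2 : B i ≤ ∑ i, |B i| := (le_abs_self _).trans (Finset.single_le_sum (f := fun i => |B i|)
      (fun j _ => abs_nonneg _) (Finset.mem_univ i))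
    have h3 : (0 : ℝ) ≤ 1 + ‖z‖ ^ 2 := by positivity
    exact mul_le_mul_of_nonneg_right h2 h3
  obtain ⟨C, μ, E, i0, b0, hC, hb, hb0, hE, -, hp, hlb, hT, hEA⟩ := smu_in (fun i => (hV i).1) (fun i => (hV i).2.2.1) 0 hm hbν hcV hA hAp
  have hC0 : 0 < C := by linarith
  have hC0' : (C : ℂ) ≠ 0 := by exact_mod_cast hC0.ne'
  have hUo : IsOpen (UP (pol v.2)) := isOpen_ne_fun (pol v.2).continuous continuous_const
  refine ⟨E, fun i w => V i w / C, fun i w => (w ^ (i : ℕ) / (pol v.2).eval w ^ 2) / C, fun i w => μ i w / C, i0, b0 / C, ?_, hEA⟩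
  refine ⟨by positivity, fun i => (hV i).1.div_const _, fun i => ?_, ?_, hE, hp, ?_, ?_, ?_, ?_⟩
  · refine DifferentiableOn.div_const ?_ _
    intro w hw
    exact ((differentiableAt_id.pow _).div ((pol v.2).differentiable.differentiableAt.pow 2) (pow_ne_zero 2 hw)).differentiableWithinAt
  · intro i w hw
    have h2 := (hV i).2.1 w hw
    rw [eval_pow, eval_X] at h2
    have h3 : deriv (gg (pol v.1) (pol v.2)) w = Pool.Agent.H61.TT.dg (pol v.1) (pol v.2) w := (hasDerivAt_gg hw).deriv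
    show V i (gg (pol v.1) (pol v.2) w) / C = deriv (gg (pol v.1) (pol v.2)) w * (V i w / C) + w ^ (i : ℕ) / (pol v.2).eval w ^ 2 / C
    rw [h2, h3]
    ring
  · intro i w _
    show ‖μ i w / C‖ ≤ 1
    rw [norm_div, Complex.norm_real, Real.norm_of_nonneg hC0.le, div_le_one hC0]
    exact hb i _
  · intro w hw
    show b0 / C ≤ ‖μ i0 w / C‖
    rw [norm_div, Complex.norm_real, Real.norm_of_nonneg hC0.le]
    exact div_le_div_of_nonneg_right (hlb _ hw) hC0.le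
  · intro ε hε
    obtain ⟨ρ, hρ, h2⟩ := hT (ε * C) (by positivity)
    refine ⟨ρ, hρ, fun i w hw r hr hrρ => ?_⟩
    obtain ⟨H, hH, h3⟩ := h2 i w hw r hr hrρ
    refine ⟨fun u => H u / C, hH.div_const _, fun u hu => ?_⟩
    have h4 : V i u / C - μ i w / C * (starRingEnd ℂ) (u - w) - H u / C =
      (V i u - μ i w * (starRingEnd ℂ) (u - w) - H u) / C := by ring
    rw [h4, norm_div, Complex.norm_real, Real.norm_of_nonneg hC0.le, div_le_iff₀ hC0]
    have := h3 u hu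
    nlinarith
  · intro β
    refine sdm (C := |C1|) ?_ (by omega) ?_ β
    · intro i w
      rw [norm_div, Complex.norm_real, Real.norm_of_nonneg hC0.le, div_le_iff₀ hC0]
      have h3 : (0 : ℝ) ≤ 1 + ‖w‖ ^ 2 := by positivity
      calc ‖V i w‖ ≤ C1 * (1 + ‖w‖ ^ 2) := hC1 i w
        _ ≤ |C1| * (1 + ‖w‖ ^ 2) := mul_le_mul_of_nonneg_right (le_abs_self _) h3
        _ ≤ |C1| * (1 + ‖w‖ ^ 2) * C := le_mul_of_one_le_right (by positivity) hC
    · intro c hc
      refine v_inj hbn hV (c := c) fun z => ?_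
      have h2 := hc z
      have h3 : ∀ i, c i * (V i z / C) = (1 / (C : ℂ)) * (c i * V i z) := fun i => by ring
      rw [Finset.sum_congr rfl fun i _ => h3 i, ← Finset.mul_sum] at h2
      exact (mul_eq_zero.1 h2).resolve_left (one_div_ne_zero hC0')

/-- spreading in the chart where infinity is fixed -/
theorem le_s (hd : 2 ≤ d) (hcop : IsCoprime (pol v.1) (pol v.2)) (hdeg : max (pol v.1).natDegree (pol v.2).natDegree = d)
    (hup : ¬ Up v) (hJ : JS (Rf v) = univ) (hi : Rf v OnePoint.infty = OnePoint.infty) :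
    LE (gg (pol v.1) (pol v.2)) (UP (pol v.2)) := by
  have rat_it : ∀ (n : ℕ) (z : ℂ), (Rf v)^[n] (z : OnePoint ℂ) ≠ OnePoint.infty →
      (∀ j < n, (pol v.2).eval ((gg (pol v.1) (pol v.2))^[j] z) ≠ 0) ∧
        (Rf v)^[n] (z : OnePoint ℂ) = (((gg (pol v.1) (pol v.2))^[n] z : ℂ) : OnePoint ℂ) := by
    intro n z
    induction n with
    | zero => exact fun _ => ⟨fun j hj => absurd hj (Nat.not_lt_zero j), rfl⟩
    | succ n ih =>
      intro h
      have h2 : (Rf v)^[n] (z : OnePoint ℂ) ≠ OnePoint.infty := by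
        intro h3
        rw [Function.iterate_succ_apply', h3, hi] at h
        exact h rfl
      obtain ⟨h3, h4⟩ := ih h2
      have h5 : (pol v.2).eval ((gg (pol v.1) (pol v.2))^[n] z) ≠ 0 := by
        intro h6
        apply h
        rw [Function.iterate_succ_apply', h4]
        show rat (pol v.1) (pol v.2) _ = _
        rw [rat_coe]
        unfold pt
        rw [if_pos h6]
      refine ⟨fun j hj => ?_, ?_⟩
      · rcases Nat.lt_succ_iff_lt_or_eq.1 hj with h6 | h6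
        · exact h3 j h6
        · rw [h6]
          exact h5
      · rw [Function.iterate_succ_apply', h4, Function.iterate_succ_apply']
        exact rat_coe_of_ne h5
  refine ⟨isOpen_ne_fun (pol v.2).continuous continuous_const, fun z hz => (hasDerivAt_gg hz).differentiableAt.differentiableWithinAt, ?_⟩
  intro O hO hn R
  obtain ⟨N, hN⟩ := leo_s hd hcop hdeg hup hJ (OnePoint.isOpenEmbedding_coe.isOpenMap O hO) (hn.image _)
  refine ⟨N, fun n hn y _ => ?_⟩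
  obtain ⟨x, ⟨z, hz, rfl⟩, hx⟩ := hN n hn (y : OnePoint ℂ)
  obtain ⟨h2, h3⟩ := rat_it n z (by
    rw [hx]
    exact OnePoint.coe_ne_infty _)
  rw [hx] at h3
  exact ⟨z, ⟨hz, fun j hj => h2 j hj⟩, (OnePoint.coe_injective h3).symm⟩

/-- a minimal piece with a critical point contains no fixed points -/
theorem mns_fix (hd : 2 ≤ d) (hcop : IsCoprime (pol v.1) (pol v.2)) (hdeg : max (pol v.1).natDegree (pol v.2).natDegree = d)
    (hup : ¬ Up v) (hJ : JS (Rf v) = univ) {S : Set (OnePoint ℂ)} (hS : MnS (Rf v) (KK (Rf v)) S) (hc : ∃ c ∈ S, IsCrit (Rf v) c)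
    {x : OnePoint ℂ} (hx : Rf v x = x) : x ∉ S := by
  intro hxS
  obtain ⟨c, hcS, hcc⟩ := hc
  have h1 := hS.min {x} (singleton_subset_iff.2 hxS) isClosed_singleton (singleton_nonempty x) (fun y hy => by
    rw [mem_singleton_iff] at hy ⊢
    rw [hy, hx])
  rw [← h1, mem_singleton_iff] at hcS
  refine Pool.Agent.H47.PS.not_pre hd hcop hdeg hup hcc (hJ ▸ mem_univ c) 0 1 one_pos ?_
  rw [Function.iterate_one, hcS, hx]
  rfl

theorem sfxl_g (hd : 2 ≤ d) (hcop : IsCoprime (pol v.1) (pol v.2))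
    (hdeg : max (pol v.1).natDegree (pol v.2).natDegree = d) (hup : ¬ Up v) (hJ : JS (Rf v) = univ)
    (h0 : Rf v ((0 : ℂ) : OnePoint ℂ) = ((0 : ℂ) : OnePoint ℂ)) (h1 : Rf v ((1 : ℂ) : OnePoint ℂ) = ((1 : ℂ) : OnePoint ℂ))
    (hi : Rf v OnePoint.infty = OnePoint.infty)
    (hMU : ∀ S : Set (OnePoint ℂ), MnS (Rf v) (KK (Rf v)) S → (∃ c ∈ S, IsCrit (Rf v) c) → MUs v S) : SFXl v := by
  intro S hS hc q N g U hU hg he
  have hcont : Continuous (Rf v) := rat_continuous hcop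
  have hd1 : 1 ≤ max (pol v.1).natDegree (pol v.2).natDegree := by rw [hdeg]; omega
  have hKc : IsClosed (KK (Rf v)) := isClosed_closure
  have hKf : ∀ x ∈ KK (Rf v), Rf v x ∈ KK (Rf v) := kj_inv hcont
  have hcK : ∀ c, IsCrit (Rf v) c → Rf v c ∈ KK (Rf v) := fun c hc =>
    subset_closure ⟨c, hc, hJ ▸ mem_univ c, 1, le_rfl, rfl⟩
  have hinf : OnePoint.infty ∉ S := mns_fix hd hcop hdeg hup hJ hS hc hi
  obtain ⟨s0, hs0, hs1⟩ := ch_sep (B := (KK (Rf v) \ S) ∪ {OnePoint.infty}) hS.cl (hS.off.union isClosed_singleton)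
    (disjoint_left.2 fun x hx hx' => by
      rcases hx' with h2 | h2
      · exact h2.2 hx
      · rw [mem_singleton_iff] at h2
        exact hinf (h2 ▸ hx))
  obtain ⟨δ1, hδ1, huc⟩ := ch_unif hcont (show 0 < s0 / 2 by positivity)
  obtain ⟨O, hO⟩ : ∃ O : Set (OnePoint ℂ), O = ⋃ p ∈ S, {y | chord p y < min δ1 (s0 / 2)} := ⟨_, rfl⟩
  have hOo : IsOpen O := hO ▸ isOpen_biUnion fun p _ => ch_ball p _
  have hSO : S ⊆ O := by
    intro x hx
    rw [hO]
    refine mem_biUnion hx ?_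
    show chord x x < min δ1 (s0 / 2)
    rw [chord_zero]
    positivity
  obtain ⟨ν, C1, hm, hb, hfr, hinv, hpos⟩ := hMU S hS hc O hOo hSO
  obtain ⟨A, hA⟩ : ∃ A : Set ℂ, A = {z : ℂ | ∀ ε : ℝ, 0 < ε → ∀ᶠ n : ℕ in atTop, ∃ p ∈ S, chord ((Rf v)^[n] (z : OnePoint ℂ)) p < ε} := ⟨_, rfl⟩
  have hAm : MeasurableSet A := hA ▸ tend_meas hcont S
  have hνm : MeasurableSet {z | ν z ≠ 0} := (hm (measurableSet_singleton 0)).compl
  have hemc : ∀ (q w : ℂ), w ≠ 0 → Pool.Agent.H66.IL.em q w = ((q + 1 / w : ℂ) : OnePoint ℂ) := by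
    intro q w hw
    unfold Pool.Agent.H66.IL.em
    rw [if_neg hw]
  have hAp : 0 < volume {z ∈ A | ν z ≠ 0} := by
    rw [pos_iff_ne_zero]
    intro hA0
    have hpos2 : 0 < volume {z ∈ Aᶜ ∩ {z | ν z ≠ 0} | ν z ≠ 0} := by
      rw [pos_iff_ne_zero]
      intro h2
      refine hpos.ne' (measure_mono_null (fun z hz => ?_) (measure_union_null hA0 h2))
      by_cases hzA : z ∈ A
      · exact Or.inl ⟨hzA, hz⟩
      · exact Or.inr ⟨⟨hzA, hz⟩, hz⟩
    obtain ⟨E, Y, hh, μ, i0, b0, hX, hE⟩ := sfx_pl hd hcop hdeg hup hJ h0 h1 hi hm hb hinv (hAm.compl.inter hνm) hpos2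
    obtain ⟨z, hzE⟩ : E.Nonempty := nonempty_of_measure_ne_zero hX.Ep.ne'
    obtain ⟨hzA, hzν⟩ := hE hzE
    have hfz : ∃ᶠ n : ℕ in atTop, ∃ p ∈ S, chord ((Rf v)^[n] (z : OnePoint ℂ)) p < min δ1 (s0 / 2) := by
      refine (hfr z hzν).mono fun n hn => ?_
      rw [hO, mem_iUnion₂] at hn
      obtain ⟨p, hp, h2⟩ := hn
      exact ⟨p, hp, by rw [ch_comm]; exact h2⟩
    -- the orbit does not meet infinity
    have hpl : ∀ n : ℕ, (Rf v)^[n] (z : OnePoint ℂ) ≠ OnePoint.infty := by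
      intro n hn
      obtain ⟨m, hm, p, hp, hp1⟩ := frequently_atTop.1 hfz n
      have h2 : (Rf v)^[m] (z : OnePoint ℂ) = OnePoint.infty := by
        obtain ⟨k, rfl⟩ : ∃ k, m = k + n := ⟨m - n, by omega⟩
        rw [Function.iterate_add_apply, hn]
        exact Function.iterate_fixed hi k
      have h3 := hs1 p hp OnePoint.infty (Or.inr rfl)
      rw [h2, ch_comm] at hp1
      have h4 := hp1.trans_le (min_le_right _ _)
      linarith
    have hit : ∀ n : ℕ, (Rf v)^[n] (z : OnePoint ℂ) = (((gg (pol v.1) (pol v.2))^[n] z : ℂ) : OnePoint ℂ) ∧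
        (gg (pol v.1) (pol v.2))^[n] z ∈ UP (pol v.2) := by
      have hU : ∀ n : ℕ, (Rf v)^[n] (z : OnePoint ℂ) = (((gg (pol v.1) (pol v.2))^[n] z : ℂ) : OnePoint ℂ) →
          (gg (pol v.1) (pol v.2))^[n] z ∈ UP (pol v.2) := by
        intro n hn hb0
        apply hpl (n + 1)
        rw [Function.iterate_succ_apply', hn]
        show rat (pol v.1) (pol v.2) _ = _
        rw [rat_coe]
        unfold pt
        rw [if_pos hb0]
      intro n
      induction n with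
      | zero => exact ⟨rfl, hU 0 rfl⟩
      | succ n ih =>
        have h2 : (Rf v)^[n + 1] (z : OnePoint ℂ) = (((gg (pol v.1) (pol v.2))^[n + 1] z : ℂ) : OnePoint ℂ) := by
          rw [Function.iterate_succ_apply', ih.1, Function.iterate_succ_apply']
          exact rat_coe_of_ne ih.2
        exact ⟨h2, hU _ h2⟩
    obtain ⟨ε, hε, hcol⟩ := col hS.inv (show 0 < s0 / 2 by positivity) hδ1 huc hfz (by
      intro h2
      exact hzA (by rw [hA]; exact h2))
    -- the compact set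
    obtain ⟨D0, hD0⟩ : ∃ D0 : Set (OnePoint ℂ), D0 = {y | (∃ p ∈ S, chord p y ≤ s0 / 2) ∧ ∀ p ∈ S, ε ≤ chord p y} := ⟨_, rfl⟩
    have hSc : IsCompact S := hS.cl.isCompact
    have hD0c : IsClosed D0 := by
      have e : D0 = ((fun y : OnePoint ℂ × OnePoint ℂ => y.2) '' ((S ×ˢ univ) ∩ {y | chord y.1 y.2 ≤ s0 / 2})) ∩ ⋂ p ∈ S, {y | ε ≤ chord p y} := by
        ext y
        rw [hD0]
        simp only [mem_inter_iff, mem_iInter]
        constructor
        · rintro ⟨⟨p, hp, h2⟩, h3⟩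
          exact ⟨⟨(p, y), ⟨⟨hp, mem_univ _⟩, h2⟩, rfl⟩, h3⟩
        · rintro ⟨⟨⟨p, y'⟩, ⟨⟨hp, -⟩, h2⟩, rfl⟩, h3⟩
          exact ⟨⟨p, hp, h2⟩, h3⟩
      rw [e]
      refine IsClosed.inter ?_ (isClosed_biInter fun p _ => isClosed_le continuous_const (ch_contl p))
      refine (IsCompact.image ?_ continuous_snd).isClosed
      exact (hSc.prod isCompact_univ).inter_right (isClosed_le chord_cont continuous_const)
    have hD0K : ∀ y ∈ D0, y ∉ KK (Rf v) ∪ {OnePoint.infty} := by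
      intro y hy hyK
      rw [hD0] at hy
      obtain ⟨⟨p, hp, h2⟩, h3⟩ := hy
      have h4 : y ∉ S := fun hyS => by
        have h5 := h3 y hyS
        rw [chord_zero] at h5
        linarith
      have h5 : y ∈ (KK (Rf v) \ S) ∪ {OnePoint.infty} := by
        rcases hyK with h6 | h6
        · exact Or.inl ⟨h6, h4⟩
        · exact Or.inr h6
      have h6 := hs1 p hp y h5
      linarith
    have hC0 : IsCompact ((fun w : ℂ => (w : OnePoint ℂ)) ⁻¹' D0) := by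
      refine OnePoint.isOpenEmbedding_coe.isInducing.isCompact_preimage_iff ?_ |>.2 hD0c.isCompact
      intro y hy
      have h2 : y ≠ OnePoint.infty := fun h3 => hD0K y hy (Or.inr h3)
      obtain ⟨w, hw⟩ := OnePoint.ne_infty_iff_exists.1 h2
      exact ⟨w, hw⟩
    refine no_col (le_s hd hcop hdeg hup hJ hi) hcop hd1 hi hKc hKf hcK hX hzE (fun k => (hit k).2) hC0 (fun u hu h2 => hD0K _ hu (Or.inl h2)) ?_
    refine hcol.mono fun n hn => ?_
    obtain ⟨⟨p, hp, h2⟩, h3⟩ := hn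
    show (((gg (pol v.1) (pol v.2))^[n] z : ℂ) : OnePoint ℂ) ∈ D0
    rw [← (hit n).1, hD0]
    exact ⟨⟨p, hp, by rw [ch_comm]; exact h2.le⟩, fun p hp => by rw [ch_comm]; exact h3 p hp⟩
  obtain ⟨E, Y, hh, μ, i0, b0, hX, hE⟩ := fxs_in hd hcop hdeg hup hJ h0 h1 hi hm hb hinv hAm hAp hU hg he
  refine ⟨E, Y, hh, μ, i0, b0, hX, fun z hz => ?_⟩
  obtain ⟨hz0, hzA⟩ := hE z hz
  rw [hemc q z hz0]
  rw [hA] at hzA
  exact hzA

end Pool.Agent.H66.IV
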