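import Pool.Agent.H66.IV.Inv
import Pool.Agent.H66.IL.SEG
import Pool.Agent.H56.UD.Defs

/-!
# LOC (MP_8f2e1c): the field `FX` from an invariant line field on a set `B`

`fx_inv`: `μ` bounded, measurable, zero off the compact set `J`, invariant (almost everywhere), `μ ≠ 0` on a part of `B` of positive measure. Then there are fields as in `FX` (H56/UD) whose compact set `E` is in `B`.
The field is the Cauchy transform of `μ` (`inv_hol`), the expansions are `tz` (H66/IL), the set is `eg_fam`.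
`fg_inv`: the same fields for a continuous potential `V` of `μ` (no support condition; Julia set = sphere).
-/

set_option autoImplicit false

open Filter Topology Metric Set MeasureTheory

namespace Pool.Agent.H66.IV

open Pool.Agent.H66.IL (Ct Rt RI ct_ri ct_cont ri_add ri_smul mor tz eg_fam)

/-- the fields for a potential -/
theorem fg_inv {f V μ : ℂ → ℂ} {U : Set ℂ} (hU : IsOpen U) (hf : DifferentiableOn ℂ f U)
    (hm : Measurable μ) {C : ℝ} (hb : ∀ z, ‖μ z‖ ≤ C) (hV : Continuous V)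
    (hri : ∀ z w : ℂ, z.re ≤ w.re → z.im ≤ w.im → RI V z w = 2 * Complex.I * ∫ u in Rt z w, μ u)
    (hinv : ∀ᵐ z : ℂ, z ∈ U → μ (f z) * (starRingEnd ℂ) (deriv f z) = μ z * deriv f z)
    {B : Set ℂ} (hB : MeasurableSet B) (hp : 0 < volume {z ∈ B | μ z ≠ 0}) :
    ∃ (E : Set ℂ) (D b0 : ℝ), 1 ≤ D ∧ 0 < b0 ∧ E ⊆ B ∧ IsCompact E ∧ 0 < volume E ∧
      (∀ z ∈ E, b0 ≤ ‖μ z / D‖) ∧ (∀ z, ‖μ z / D‖ ≤ 1) ∧
      DifferentiableOn ℂ (fun z => V (f z) / D - deriv f z * (V z / D)) U ∧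
      ∀ ε : ℝ, 0 < ε → ∃ ρ : ℝ, 0 < ρ ∧ ∀ z ∈ E, ∀ r : ℝ, 0 < r → r < ρ →
        ∃ H : ℂ → ℂ, DifferentiableOn ℂ H (ball z r) ∧
          ∀ w ∈ ball z r, ‖V w / D - μ z / D * (starRingEnd ℂ) (w - z) - H w‖ ≤ ε * r := by
  have hC : 0 ≤ C := (norm_nonneg _).trans (hb 0)
  have hBm : MeasurableSet {z ∈ B | μ z ≠ 0} := hB.inter (hm (measurableSet_singleton 0).compl)
  obtain ⟨K, hKB, hK, hKp⟩ := hBm.exists_lt_isCompact hp
  have hKe : {z ∈ K | μ z ≠ 0} = K := by
    ext z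
    exact ⟨fun h => h.1, fun h => ⟨h, (hKB h).2⟩⟩
  obtain ⟨E, b0, hb0, hEc, hEK, hEp, hlb, hEt⟩ := eg_fam (n := 1) (μ := fun _ => μ) (fun _ => hm) (fun _ => hb) hK 0
    (by rw [hKe]; exact hKp)
  obtain ⟨R, hR⟩ := hK.isBounded.exists_norm_le
  obtain ⟨D, hD⟩ : ∃ D, D = C + 1 := ⟨_, rfl⟩
  have hD1 : 1 ≤ D := by rw [hD]; linarith
  have hD0 : 0 < D := by linarith
  have hn : ∀ z, ‖μ z / D‖ = ‖μ z‖ / D := fun z => by
    rw [norm_div, Complex.norm_real, Real.norm_of_nonneg hD0.le]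
  refine ⟨E, D, b0 / D, hD1, by positivity, fun z hz => (hKB (hEK hz)).1, hEc, hEp, ?_, ?_, ?_, ?_⟩
  · intro z hz
    rw [hn]
    exact div_le_div_of_nonneg_right (hlb z hz) hD0.le
  · intro z
    rw [hn, div_le_one hD0, hD]
    linarith [hb z]
  · have h1 := (inv_hol hU hf hm hb hV hri hinv).div_const (D : ℂ)
    refine h1.congr fun z _ => ?_
    ring
  · intro ε hε
    obtain ⟨η, hη, htz⟩ := tz (R := R + 1) hV hm hb (fun z w h1 h2 _ => hri z w h1 h2) (ε := ε * D) (by positivity)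
    obtain ⟨ρ1, hρ1, hi⟩ := hEt (η / 4) (by positivity)
    refine ⟨min (ρ1 / 2) (1 / 2), lt_min (by positivity) (by positivity), ?_⟩
    intro z hz r hr hrρ
    have hr2 : r < ρ1 / 2 := hrρ.trans_le (min_le_left _ _)
    have hr3 : r < 1 / 2 := hrρ.trans_le (min_le_right _ _)
    obtain ⟨H, hH, h2⟩ := htz z r hr (by
      intro u hu
      have h1 := hR z (hEK hz)
      rw [mem_ball_zero_iff]
      rw [mem_ball, dist_eq_norm] at hu
      have h2 := norm_add_le (u - z) z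
      rw [sub_add_cancel] at h2
      linarith) (by
      have h1 := hi 0 z hz (2 * r) (by positivity) (by linarith)
      refine h1.trans (le_of_eq ?_)
      ring)
    refine ⟨fun u => H u / D, hH.div_const _, fun u hu => ?_⟩
    have h4 : V u / D - μ z / D * (starRingEnd ℂ) (u - z) - H u / D = (V u - μ z * (starRingEnd ℂ) (u - z) - H u) / D := by ring
    rw [h4, norm_div, Complex.norm_real, Real.norm_of_nonneg hD0.le, div_le_iff₀ hD0]
    have := h2 u hu
    linarith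

/-- the field `FX` on a given set, Julia set not the sphere -/
theorem fx_inv {f μ : ℂ → ℂ} {U J : Set ℂ} {δ : ℝ} (hU : IsOpen U) (hf : DifferentiableOn ℂ f U) (hJ : IsCompact J)
    (hm : Measurable μ) {C : ℝ} (hb : ∀ z, ‖μ z‖ ≤ C) (h0 : ∀ z, z ∉ J → μ z = 0)
    (hinv : ∀ᵐ z : ℂ, z ∈ U → μ (f z) * (starRingEnd ℂ) (deriv f z) = μ z * deriv f z)
    {B : Set ℂ} (hB : MeasurableSet B) (hp : 0 < volume {z ∈ B | μ z ≠ 0}) :
    ∃ (E : Set ℂ) (X h ν : ℂ → ℂ) (b0 : ℝ), E ⊆ B ∧ Pool.Agent.H56.UD.FX f U J E δ X h ν b0 := by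
  obtain ⟨R, hR⟩ := hJ.isBounded.subset_ball (0 : ℂ)
  have h0' : ∀ u, u ∉ ball (0 : ℂ) R → μ u = 0 := fun u hu => h0 u fun h => hu (hR h)
  have hV := ct_cont hm hb h0'
  have hri : ∀ z w : ℂ, z.re ≤ w.re → z.im ≤ w.im → RI (Ct μ) z w = 2 * Complex.I * ∫ u in Rt z w, μ u :=
    fun z w h1 h2 => ct_ri hm hb h0' h1 h2
  have hBJ : MeasurableSet (B ∩ J) := hB.inter hJ.isClosed.measurableSet
  have hp' : 0 < volume {z ∈ B ∩ J | μ z ≠ 0} := by
    refine hp.trans_le (measure_mono fun z hz => ⟨⟨hz.1, ?_⟩, hz.2⟩)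
    by_contra h
    exact hz.2 (h0 z h)
  obtain ⟨E, D, b0, hD, hb0, hEB, hEc, hEp, hlb, hub, hd, hT⟩ := fg_inv hU hf hm hb hV hri hinv hBJ hp'
  refine ⟨E, fun z => Ct μ z / D, fun z => Ct μ (f z) / D - deriv f z * (Ct μ z / D), fun z => μ z / D, b0,
    hEB.trans inter_subset_left, ⟨hb0, hV.div_const _, hd, fun z _ => by ring, ?_, hEc, hEB.trans inter_subset_right, hEp,
      fun z hz => ⟨hlb z hz, hub z⟩, hT⟩⟩
  refine DifferentiableOn.div_const ?_ _
  intro z hz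
  obtain ⟨s, hs, hsJ⟩ := Metric.isOpen_iff.1 hJ.isClosed.isOpen_compl z hz.2
  have h1 : DifferentiableOn ℂ (Ct μ) (ball z s) := by
    refine mor hV.continuousOn fun a b h1 h2 h3 => ?_
    rw [hri a b h1 h2]
    have hRm : MeasurableSet (Rt a b) := by
      unfold Rt
      exact (measurableSet_le measurable_const Complex.measurable_re).inter
        ((measurableSet_le Complex.measurable_re measurable_const).inter
        ((measurableSet_le measurable_const Complex.measurable_im).inter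
        (measurableSet_le Complex.measurable_im measurable_const)))
    rw [setIntegral_congr_fun (g := fun _ => (0 : ℂ)) hRm fun u hu => h0 u fun h => hsJ (h3 hu) h]
    simp
  exact ((h1 z (mem_ball_self hs)).differentiableAt (isOpen_ball.mem_nhds (mem_ball_self hs))).differentiableWithinAt

end Pool.Agent.H66.IV
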