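import Pool.Agent.H66.IV.Sfg
import Pool.Agent.H47.LI.Ld
import Pool.Agent.H31.LOC.Loa

/-!
# LOC (MP_8f2e1c), Julia set = sphere: THEOREM LOC

`mus_of`: the line fields near a minimal piece with a critical point (`ld_s`, `loa`). `sfxl_s`: the fields of THEOREM LOC, Julia set = sphere, `0`, `1`, `∞` fixed.
-/

set_option autoImplicit false

open Filter Topology Polynomial Metric Set MeasureTheory

namespace Pool.Agent.H66.IV

open Pool.Agent.H44.Fatou (rat rat_continuous rat_coe rat_coe_of_ne pt crit_coe)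
open Pool.Agent.H56.HR (FS EqAt)
open Pool.Agent.H32.BT Pool.Agent.H79.Eul Pool.Agent.H79.Par
open Pool.Agent.H35.EX Pool.Agent.H44.RR Pool.Agent.H44.RC Pool.Agent.H47.RJ
open Pool.Agent.H47.NN Pool.Agent.H44.ND Pool.Agent.H79.ES Pool.Agent.H44.TH
open Pool.Agent.H64.NC Pool.Agent.H61.TT Pool.Agent.H57.CP Pool.Agent.H3.NC
open Pool.Agent.H64.TP (KK)
open Pool.Agent.H56.END (MnS)
open Pool.Agent.H56.SPH (SFXl)
open Pool.Agent.H47.LI (Bn ld_s)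

variable {d : ℕ} {v : E d}

private theorem pre_it {a b : Polynomial ℂ} {N : Set ℂ} (n : ℕ) : ∀ z : ℂ, z ∈ (pre a b)^[n] N →
    (rat a b)^[n] (z : OnePoint ℂ) = (((gg a b)^[n] z : ℂ) : OnePoint ℂ) ∧ (gg a b)^[n] z ∈ N := by
  induction n with
  | zero => exact fun z hz => ⟨rfl, hz⟩
  | succ n ih =>
    intro z hz
    rw [Function.iterate_succ_apply'] at hz
    obtain ⟨h1, h2⟩ := hz
    obtain ⟨h3, h4⟩ := ih _ h2
    refine ⟨?_, ?_⟩
    · rw [Function.iterate_succ_apply, rat_coe_of_ne h1, Function.iterate_succ_apply]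
      exact h3
    · rw [Function.iterate_succ_apply]
      exact h4

theorem mus_of (hd : 2 ≤ d) (hcop : IsCoprime (pol v.1) (pol v.2))
    (hdeg : max (pol v.1).natDegree (pol v.2).natDegree = d) (hup : ¬ Up v) (hJ : JS (Rf v) = univ)
    (h0 : Rf v ((0 : ℂ) : OnePoint ℂ) = ((0 : ℂ) : OnePoint ℂ)) (h1 : Rf v ((1 : ℂ) : OnePoint ℂ) = ((1 : ℂ) : OnePoint ℂ))
    (hi : Rf v OnePoint.infty = OnePoint.infty) {S : Set (OnePoint ℂ)} (hS : MnS (Rf v) (KK (Rf v)) S)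
    (hc : ∃ c ∈ S, IsCrit (Rf v) c) : MUs v S := by
  have hinf : OnePoint.infty ∉ S := mns_fix hd hcop hdeg hup hJ hS hc hi
  have hS0 : ((0 : ℂ) : OnePoint ℂ) ∉ S := mns_fix hd hcop hdeg hup hJ hS hc h0
  have hS1 : ((1 : ℂ) : OnePoint ℂ) ∉ S := mns_fix hd hcop hdeg hup hJ hS hc h1
  obtain ⟨M, hM⟩ : ∃ M : Set ℂ, M = (fun w : ℂ => (w : OnePoint ℂ)) ⁻¹' S := ⟨_, rfl⟩
  have hMS : ∀ w : ℂ, w ∈ M ↔ (w : OnePoint ℂ) ∈ S := fun w => by rw [hM]; rfl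
  have hMc : IsCompact M := by
    rw [hM]
    refine OnePoint.isOpenEmbedding_coe.isInducing.isCompact_preimage_iff ?_ |>.2 hS.cl.isCompact
    intro y hy
    have h2 : y ≠ OnePoint.infty := fun h3 => hinf (h3 ▸ hy)
    obtain ⟨w, hw⟩ := OnePoint.ne_infty_iff_exists.1 h2
    exact ⟨w, hw⟩
  have hMb : ∀ x ∈ M, (pol v.2).eval x ≠ 0 := by
    intro x hx hb
    apply hinf
    have h2 := hS.inv _ ((hMS x).1 hx)
    have h3 : Rf v (x : OnePoint ℂ) = OnePoint.infty := by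
      show rat (pol v.1) (pol v.2) _ = _
      rw [rat_coe]
      unfold pt
      rw [if_pos hb]
    rwa [h3] at h2
  have hMi : ∀ x ∈ M, gg (pol v.1) (pol v.2) x ∈ M := by
    intro x hx
    rw [hMS]
    have h2 := hS.inv _ ((hMS x).1 hx)
    have h3 : Rf v (x : OnePoint ℂ) = ((gg (pol v.1) (pol v.2) x : ℂ) : OnePoint ℂ) := rat_coe_of_ne (hMb x hx)
    rwa [h3] at h2
  obtain ⟨c, hcS, hcc⟩ := hc
  obtain ⟨c1, rfl⟩ : ∃ c1 : ℂ, (c1 : OnePoint ℂ) = c := OnePoint.ne_infty_iff_exists.1 (fun h3 => hinf (h3 ▸ hcS))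
  have hc1 : c1 ∈ M := (hMS c1).2 hcS
  have hcr : Pool.Agent.H18.UP.Cr (pol v.1) (pol v.2) c1 := ⟨hMb c1 hc1, crit_coe hcc⟩
  obtain ⟨hh, V, δ1, -, -, -, hδ1, hLD⟩ := ld_s hd hcop hdeg hup hJ h0 h1 hi hMc hMi hMb hc1 hcr
  intro O hO hSO
  -- the neighbourhood
  obtain ⟨R, hR⟩ := hMc.isBounded.subset_ball (0 : ℂ)
  have hM0 : (0 : ℂ) ∉ M := fun h2 => hS0 ((hMS 0).1 h2)
  have hM1 : (1 : ℂ) ∉ M := fun h2 => hS1 ((hMS 1).1 h2)
  obtain ⟨s1, hs1, hb1⟩ := Metric.isOpen_iff.1 hMc.isClosed.isOpen_compl 0 hM0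
  obtain ⟨s2, hs2, hb2⟩ := Metric.isOpen_iff.1 hMc.isClosed.isOpen_compl 1 hM1
  obtain ⟨s, hs, hss1, hss2⟩ : ∃ s : ℝ, 0 < s ∧ s < s1 ∧ s < s2 := ⟨min s1 s2 / 2, by positivity, by
    have := min_le_left s1 s2
    linarith, by
    have := min_le_right s1 s2
    linarith⟩
  obtain ⟨N, hN⟩ : ∃ N : Set ℂ, N = ((fun w : ℂ => (w : OnePoint ℂ)) ⁻¹' O ∩ ball 0 R) ∩ ({z | s < ‖z‖} ∩ {z | s < ‖z - 1‖}) := ⟨_, rfl⟩
  have hNo : IsOpen N := by
    rw [hN]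
    exact ((hO.preimage OnePoint.continuous_coe).inter isOpen_ball).inter
      ((isOpen_lt continuous_const continuous_norm).inter (isOpen_lt continuous_const (continuous_id.sub continuous_const).norm))
  have hMN : M ⊆ N := by
    intro x hx
    rw [hN]
    refine ⟨⟨hSO ((hMS x).1 hx), hR hx⟩, ?_, ?_⟩
    · show s < ‖x‖
      by_contra hlt
      rw [not_lt] at hlt
      exact hb1 (by rw [mem_ball_zero_iff]; linarith) hx
    · show s < ‖x - 1‖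
      by_contra hlt
      rw [not_lt] at hlt
      exact hb2 (by rw [mem_ball, dist_eq_norm]; linarith) hx
  obtain ⟨C, hL⟩ := hLD N s hNo (isBounded_ball.subset fun z hz => by
    rw [hN] at hz
    exact hz.1.2) hMN hs (fun z hz => by
    rw [hN] at hz
    exact (show s < ‖z‖ from hz.2.1).le) (fun z hz => by
    rw [hN] at hz
    exact (show s < ‖z - 1‖ from hz.2.2).le) δ1 hδ1 le_rfl
  obtain ⟨μ, C1, hm, hb, hB, hinv, hpos⟩ := Pool.Agent.H31.LOC.loa hL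
  refine ⟨μ, C1, hm, hb, fun z hz => ?_, hinv, hpos⟩
  have hzB : z ∈ Bn (pol v.1) (pol v.2) N := by
    by_contra h2
    exact hz (hB z h2)
  refine (show ∃ᶠ n : ℕ in atTop, z ∈ (pre (pol v.1) (pol v.2))^[n] N from hzB).mono fun n hn => ?_
  obtain ⟨h2, h3⟩ := pre_it n z hn
  rw [hN] at h3
  show (rat (pol v.1) (pol v.2))^[n] (z : OnePoint ℂ) ∈ O
  rw [h2]
  exact h3.1.1

theorem sfxl_s (hd : 2 ≤ d) (hcop : IsCoprime (pol v.1) (pol v.2))
    (hdeg : max (pol v.1).natDegree (pol v.2).natDegree = d) (hup : ¬ Up v) (hJ : JS (Rf v) = univ)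
    (h0 : Rf v ((0 : ℂ) : OnePoint ℂ) = ((0 : ℂ) : OnePoint ℂ)) (h1 : Rf v ((1 : ℂ) : OnePoint ℂ) = ((1 : ℂ) : OnePoint ℂ))
    (hi : Rf v OnePoint.infty = OnePoint.infty) : SFXl v :=
  sfxl_g hd hcop hdeg hup hJ h0 h1 hi fun _ hS hc => mus_of hd hcop hdeg hup hJ h0 h1 hi hS hc

end Pool.Agent.H66.IV
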