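import Pool.Agent.H56.END.Chm
import Pool.Agent.H61.TT.Fib

/-!
# LOC (MP_8f2e1c), Julia set = sphere: the line fields of THEOREM LOC

`MUs v S`: for every open set `O` which contains `S` there is a bounded measurable invariant line field `μ`, not zero, whose support consists of points with infinitely many iterates in `O`.
-/

set_option autoImplicit false

open Filter Topology Polynomial Metric Set MeasureTheory

namespace Pool.Agent.H66.IV

open Pool.Agent.H32.BT Pool.Agent.H79.Eul Pool.Agent.H79.Par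
open Pool.Agent.H61.TT (gg dg)

/-- the line fields of THEOREM LOC near the set `S` -/
def MUs {d : ℕ} (v : E d) (S : Set (OnePoint ℂ)) : Prop := ∀ O : Set (OnePoint ℂ), IsOpen O → S ⊆ O →
  ∃ (μ : ℂ → ℂ) (C1 : ℝ), Measurable μ ∧ (∀ z, ‖μ z‖ ≤ C1) ∧
    (∀ z, μ z ≠ 0 → ∃ᶠ n : ℕ in atTop, (Rf v)^[n] (z : OnePoint ℂ) ∈ O) ∧
    (∀ᵐ z : ℂ, (pol v.2).eval z ≠ 0 → μ (gg (pol v.1) (pol v.2) z) * (starRingEnd ℂ) (dg (pol v.1) (pol v.2) z) =
      μ z * dg (pol v.1) (pol v.2) z) ∧ 0 < volume {z | μ z ≠ 0}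

end Pool.Agent.H66.IV
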