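import Pool.Agent.H66.IV.Fxi
import Pool.Agent.H66.IV.Mus
import Pool.Agent.H56.SPH.EndL

/-!
# LOC (MP_8f2e1c), Julia set = sphere: the fields of THEOREM LOC from the line fields

`tend_pc`: an orbit which tends to `K` and returns infinitely often near a piece `S` of `K` tends to `S`. `sfxl_of`: line fields near `S` for every `S` (`MUs`) give `SFXl` (H56/SPH/EndL).
PROOF. Let `O` be a small neighbourhood of `S`, `ν` the line field, `A` the set of the points whose orbits tend to `S`. If `A ∩ {ν ≠ 0}` had measure zero we would get fields (`fxs_in`) with `E ⊆ {ν ≠ 0} \ A`; typical points of `E` tend to `K` (`pg_exl`) and return infinitely often to `O`: they tend to `S`, contradiction. So `fxs_in` for `A`.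
-/

set_option autoImplicit false

open Filter Topology Polynomial Metric Set MeasureTheory

namespace Pool.Agent.H66.IV

open Pool.Agent.H44.Fatou (rat rat_continuous rat_coe rat_coe_of_ne pt crit_coe)
open Pool.Agent.H56.HR (FS EqAt)
open Pool.Agent.H32.BT Pool.Agent.H79.Eul Pool.Agent.H79.Par
open Pool.Agent.H35.EX Pool.Agent.H44.RR Pool.Agent.H44.RC Pool.Agent.H47.RJ
open Pool.Agent.H47.NN Pool.Agent.H44.ND Pool.Agent.H79.ES Pool.Agent.H44.TH
open Pool.Agent.H64.NC Pool.Agent.H61.TT Pool.Agent.H57.CP Pool.Agent.H3.NC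
open Pool.Agent.H64.JS (KJ kj_inv kj_sub)
open Pool.Agent.H64.TP (KK)
open Pool.Agent.H66.UX (PCs Pq rz_ex r1 UP CrS)
open Pool.Agent.H78.UX (em_hom)
open Pool.Agent.H66.IL (SFX em)
open Pool.Agent.H56.END (MnS ch_up)
open Pool.Agent.H56.SPH (SFXl pg_exl)

theorem tend_pc {f : OnePoint ℂ → OnePoint ℂ} (hf : Continuous f) {K S : Set (OnePoint ℂ)}
    (hSf : ∀ x ∈ S, f x ∈ S) {s0 : ℝ} (hs0 : 0 < s0) (hs : ∀ x ∈ S, ∀ y ∈ K \ S, s0 ≤ chord x y)
    {x : OnePoint ℂ} (hx : ∀ ε : ℝ, 0 < ε → ∀ᶠ n : ℕ in atTop, ∃ p ∈ K, chord (f^[n] x) p < ε)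
    (hfr : ∃ᶠ n : ℕ in atTop, ∃ p ∈ S, chord (f^[n] x) p < s0 / 3) :
    ∀ ε : ℝ, 0 < ε → ∀ᶠ n : ℕ in atTop, ∃ p ∈ S, chord (f^[n] x) p < ε := by
  obtain ⟨δ1, hδ1, huc⟩ := ch_unif hf (show 0 < s0 / 3 by positivity)
  obtain ⟨ε1, hε1, h1, h2⟩ : ∃ ε1 : ℝ, 0 < ε1 ∧ ε1 ≤ δ1 ∧ ε1 ≤ s0 / 3 := ⟨min δ1 (s0 / 3), by positivity, min_le_left _ _, min_le_right _ _⟩
  -- points near `K` and near `S`
  have key : ∀ (y p q : OnePoint ℂ), p ∈ K → q ∈ S → chord y p < s0 / 3 → chord y q < s0 / 3 → p ∈ S := by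
    intro y p q hp hq h3 h4
    by_contra hpS
    have h5 := hs q hq p ⟨hp, hpS⟩
    have h6 := Pool.Agent.H44.RC.ch_tri q y p
    rw [ch_comm q y] at h6
    linarith
  obtain ⟨n0, hn0⟩ := eventually_atTop.1 (hx ε1 hε1)
  obtain ⟨m, hm, q0, hq0, hq1⟩ := frequently_atTop.1 hfr n0
  have hall : ∀ k : ℕ, ∃ q ∈ S, chord (f^[m + k] x) q < s0 / 3 ∧ ∃ p ∈ S, chord (f^[m + k] x) p < ε1 := by
    intro k
    induction k with
    | zero =>
      obtain ⟨p, hp, hp1⟩ := hn0 m hm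
      exact ⟨q0, hq0, hq1, p, key _ p q0 hp hq0 (hp1.trans_le h2) hq1, hp1⟩
    | succ k ih =>
      obtain ⟨-, -, -, p, hp, hp1⟩ := ih
      have h3 : chord (f^[m + (k + 1)] x) (f p) < s0 / 3 := by
        rw [← Nat.add_assoc, Function.iterate_succ_apply']
        exact huc _ _ (hp1.trans_le h1)
      obtain ⟨p', hp', hp1'⟩ := hn0 (m + (k + 1)) (by omega)
      exact ⟨f p, hSf p hp, h3, p', key _ p' (f p) hp' (hSf p hp) (hp1'.trans_le h2) h3, hp1'⟩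
  intro ε hε
  filter_upwards [hx (min ε (s0 / 3)) (by positivity), eventually_ge_atTop m] with n hn hnm
  obtain ⟨p, hp, hp1⟩ := hn
  obtain ⟨q, hq, hq1, -⟩ := hall (n - m)
  rw [Nat.add_sub_cancel' hnm] at hq1
  exact ⟨p, key _ p q hp hq (hp1.trans_le (min_le_right _ _)) hq1, hp1.trans_le (min_le_left _ _)⟩

/-- the points whose orbits tend to `S` -/
theorem tend_meas {f : OnePoint ℂ → OnePoint ℂ} (hf : Continuous f) (S : Set (OnePoint ℂ)) :
    MeasurableSet {z : ℂ | ∀ ε : ℝ, 0 < ε → ∀ᶠ n : ℕ in atTop, ∃ p ∈ S, chord (f^[n] (z : OnePoint ℂ)) p < ε} := by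
  have h1 : {z : ℂ | ∀ ε : ℝ, 0 < ε → ∀ᶠ n : ℕ in atTop, ∃ p ∈ S, chord (f^[n] (z : OnePoint ℂ)) p < ε} =
      ⋂ k : ℕ, ⋃ N : ℕ, ⋂ n : ℕ, {z : ℂ | N ≤ n → ∃ p ∈ S, chord (f^[n] (z : OnePoint ℂ)) p < 1 / ((k : ℝ) + 1)} := by
    ext z
    simp only [mem_ofPred_eq, mem_iInter, mem_iUnion]
    constructor
    · intro h k
      exact eventually_atTop.1 (h _ (by positivity))
    · intro h ε hε
      obtain ⟨k, hk⟩ := exists_nat_one_div_lt hε
      obtain ⟨N, hN⟩ := h k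
      refine eventually_atTop.2 ⟨N, fun n hn => ?_⟩
      obtain ⟨p, hp, h2⟩ := hN n hn
      exact ⟨p, hp, h2.trans hk⟩
  rw [h1]
  refine MeasurableSet.iInter fun k => MeasurableSet.iUnion fun N => MeasurableSet.iInter fun n => ?_
  by_cases hn : N ≤ n
  · have h2 : {z : ℂ | N ≤ n → ∃ p ∈ S, chord (f^[n] (z : OnePoint ℂ)) p < 1 / ((k : ℝ) + 1)} =
        (fun z : ℂ => f^[n] (z : OnePoint ℂ)) ⁻¹' (⋃ p ∈ S, {y | chord p y < 1 / ((k : ℝ) + 1)}) := by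
      ext z
      simp only [mem_ofPred_eq, mem_preimage, mem_iUnion]
      constructor
      · intro h
        obtain ⟨p, hp, h3⟩ := h hn
        exact ⟨p, hp, by rw [ch_comm]; exact h3⟩
      · rintro ⟨p, hp, h3⟩ -
        exact ⟨p, hp, by rw [ch_comm]; exact h3⟩
    rw [h2]
    refine (IsOpen.preimage ((hf.iterate n).comp OnePoint.continuous_coe) ?_).measurableSet
    exact isOpen_biUnion fun p _ => ch_ball p _
  · have h2 : {z : ℂ | N ≤ n → ∃ p ∈ S, chord (f^[n] (z : OnePoint ℂ)) p < 1 / ((k : ℝ) + 1)} = univ := by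
      ext z
      simp only [mem_ofPred_eq, mem_univ, iff_true]
      exact fun h => absurd h hn
    rw [h2]
    exact MeasurableSet.univ

theorem sfxl_of {d : ℕ} {v : E d} (hd : 2 ≤ d) (hcop : IsCoprime (pol v.1) (pol v.2))
    (hdeg : max (pol v.1).natDegree (pol v.2).natDegree = d) (hup : ¬ Up v) (hJ : JS (Rf v) = univ)
    (h0 : Rf v ((0 : ℂ) : OnePoint ℂ) = ((0 : ℂ) : OnePoint ℂ)) (h1 : Rf v ((1 : ℂ) : OnePoint ℂ) = ((1 : ℂ) : OnePoint ℂ))
    (hi : Rf v OnePoint.infty = OnePoint.infty) (hfix : ∀ x ∈ KK (Rf v), Rf v x ≠ x)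
    (hMU : ∀ S : Set (OnePoint ℂ), MnS (Rf v) (KK (Rf v)) S → (∃ c ∈ S, IsCrit (Rf v) c) → MUs v S) : SFXl v := by
  intro S hS hc q N g U hU hg he
  have hcont : Continuous (Rf v) := rat_continuous hcop
  have hKf : ∀ x ∈ KK (Rf v), Rf v x ∈ KK (Rf v) := kj_inv hcont
  obtain ⟨s0, hs0, hs1⟩ := ch_sep hS.cl hS.off (disjoint_left.2 fun x hx hx' => hx'.2 hx)
  obtain ⟨O, hO⟩ : ∃ O : Set (OnePoint ℂ), O = ⋃ p ∈ S, {y | chord p y < s0 / 3} := ⟨_, rfl⟩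
  have hOo : IsOpen O := hO ▸ isOpen_biUnion fun p _ => ch_ball p _
  have hSO : S ⊆ O := by
    intro x hx
    rw [hO]
    refine mem_biUnion hx ?_
    show chord x x < s0 / 3
    rw [chord_zero]
    positivity
  obtain ⟨ν, C1, hm, hb, hfr, hinv, hpos⟩ := hMU S hS hc O hOo hSO
  obtain ⟨A, hA⟩ : ∃ A : Set ℂ, A = {z : ℂ | ∀ ε : ℝ, 0 < ε → ∀ᶠ n : ℕ in atTop, ∃ p ∈ S, chord ((Rf v)^[n] (z : OnePoint ℂ)) p < ε} := ⟨_, rfl⟩
  have hAm : MeasurableSet A := hA ▸ tend_meas hcont S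
  have hνm : MeasurableSet {z | ν z ≠ 0} := (hm (measurableSet_singleton 0)).compl
  have hemc : ∀ (q w : ℂ), w ≠ 0 → em q w = ((q + 1 / w : ℂ) : OnePoint ℂ) := by
    intro q w hw
    unfold Pool.Agent.H66.IL.em
    rw [if_neg hw]
  have hAp : 0 < volume {z ∈ A | ν z ≠ 0} := by
    rw [pos_iff_ne_zero]
    intro hA0
    have hpos2 : 0 < volume {z ∈ Aᶜ ∩ {z | ν z ≠ 0} | ν z ≠ 0} := by
      rw [pos_iff_ne_zero]
      intro h2
      refine hpos.ne' (measure_mono_null (fun z hz => ?_) (measure_union_null hA0 h2))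
      by_cases hzA : z ∈ A
      · exact Or.inl ⟨hzA, hz⟩
      · exact Or.inr ⟨⟨hzA, hz⟩, hz⟩
    -- the chart
    have hqP : ((0 : ℂ) : OnePoint ℂ) ∉ PCs v := fun h2 => hfix _ h2 h0
    obtain ⟨a, b, hRZ, hea⟩ := rz_ex hd hcop hdeg hup hJ h0 h1 hi le_rfl (q := 0) h0 hqP
    obtain ⟨φ, K, hKp, bil, hφ⟩ := em_hom hd (0 : ℂ)
    obtain ⟨η, ρ, hSS⟩ := r1 hRZ one_pos
    obtain ⟨E0, Y, hh, μ, i0, b0, hX0, hE0⟩ := fxs_in hd hcop hdeg hup hJ h0 h1 hi hm hb hinv (hAm.compl.inter hνm) hpos2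
      (q := 0) (N := 1) (g := gg a b) (U := UP b) hSS.Uo hSS.fd (fun w hw => hea w hw)
    obtain ⟨J, E, hEE, hPS, hX, -⟩ := pg_exl hRZ hSS hX0
    obtain ⟨z, hzE⟩ : E.Nonempty := by
      by_contra hn
      rw [not_nonempty_iff_eq_empty] at hn
      have h2 := hX.Ep
      rw [hn, measure_empty] at h2
      exact lt_irrefl _ h2
    have hzJ : z ∈ J := hX.EJ hzE
    have hJit : ∀ z ∈ J, ∀ n : ℕ, (gg a b)^[n] z ∈ J := by
      intro z hz n
      induction n with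
      | zero => exact hz
      | succ n ih =>
        rw [Function.iterate_succ_apply']
        exact hPS.Jf _ ih
    have hit : ∀ z ∈ J, ∀ n : ℕ, (Rf v)^[n] (em 0 z) = em 0 ((gg a b)^[n] z) := by
      intro z hz n
      induction n with
      | zero => rfl
      | succ n ih =>
        rw [Function.iterate_succ_apply', Function.iterate_succ_apply', ih]
        exact hea _ (hPS.JU (hJit z hz n))
    have hb_up : ∀ z w : ℂ, chord (em 0 z) (em 0 w) ≤ K * ‖z - w‖ := by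
      intro z w
      have h1 := (bil (em 0 z) (em 0 w)).2
      rw [← hφ, ← hφ, φ.apply_symm_apply, φ.apply_symm_apply] at h1
      rw [← hφ, ← hφ]
      exact h1.trans (mul_le_mul_of_nonneg_left (ch_up z w) hKp.le)
    obtain ⟨hz0, hzA, hzν⟩ := hE0 z (hEE hzE)
    have hez : em 0 z = ((0 + 1 / z : ℂ) : OnePoint ℂ) := hemc 0 z hz0
    apply hzA
    rw [hA]
    refine tend_pc hcont hS.inv hs0 hs1 (K := KK (Rf v)) ?_ ?_
    · intro ε hε
      obtain ⟨N, hN⟩ := hX.tP (ε / K) (div_pos hε hKp)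
      filter_upwards [eventually_ge_atTop N] with n hn
      obtain ⟨p, hp, h1⟩ := hN n hn z hzE
      refine ⟨em 0 p, hp, ?_⟩
      rw [← hez, hit z hzJ n]
      refine (hb_up _ _).trans_lt ?_
      rw [mul_comm]
      exact (lt_div_iff₀ hKp).1 h1
    · refine (hfr _ hzν).mono fun n hn => ?_
      rw [hO, mem_iUnion₂] at hn
      obtain ⟨p, hp, h2⟩ := hn
      exact ⟨p, hp, by rw [ch_comm]; exact h2⟩
  obtain ⟨E, Y, hh, μ, i0, b0, hX, hE⟩ := fxs_in hd hcop hdeg hup hJ h0 h1 hi hm hb hinv hAm hAp hU hg he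
  refine ⟨E, Y, hh, μ, i0, b0, hX, fun z hz => ?_⟩
  obtain ⟨hz0, hzA⟩ := hE z hz
  rw [hemc q z hz0]
  rw [hA] at hzA
  exact hzA

end Pool.Agent.H66.IV
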