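import Pool.Agent.H66.IV.Ncl
import Pool.Agent.H66.IV.Loc

/-!
# LOC (MP_8f2e1c), Julia set = sphere: typical points do not come back to a compact set off the post-critical set

`no_col`: the orbit of a point `z ∈ E` does not visit a compact set `C0` off `K` infinitely often (univalent pull backs of discs, no cones, exactness). `col`: an orbit which comes infinitely often near the piece `S` and does not tend to it visits infinitely often a compact set off `K`.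
-/

set_option autoImplicit false

open Filter Topology Polynomial Metric Set MeasureTheory

namespace Pool.Agent.H66.IV

open Pool.Agent.H44.Fatou (rat rat_continuous rat_coe rat_coe_of_ne pt crit_coe)
open Pool.Agent.H32.BT (IsCrit)
open Pool.Agent.H61.TT (gg ww RatD)
open Pool.Agent.H78.UX (oU)
open Pool.Agent.H66.IL (SFX TT)
open Pool.Agent.H66.UX (it_eq UP)
open Pool.Agent.H44.RC (ch_unif ch_comm ch_ball ch_cball)
open Pool.Agent.H35.EX (chord)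

theorem no_col {a b : Polynomial ℂ} (h : LE (gg a b) (UP b)) (hcop : IsCoprime a b) (hd : 1 ≤ max a.natDegree b.natDegree)
    (hfi : rat a b OnePoint.infty = OnePoint.infty) {K : Set (OnePoint ℂ)} (hKc : IsClosed K) (hK : ∀ x ∈ K, rat a b x ∈ K)
    (hcK : ∀ c, IsCrit (rat a b) c → rat a b c ∈ K) {E : Set ℂ} {n : ℕ} {X hh μ : Fin n → ℂ → ℂ} {i0 : Fin n} {b0 : ℝ}
    (hX : SFX (gg a b) (UP b) E n X hh μ i0 b0) {z : ℂ} (hz : z ∈ E) (hzU : ∀ k : ℕ, (gg a b)^[k] z ∈ UP b)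
    {C0 : Set ℂ} (hC0 : IsCompact C0) (hCK : ∀ u ∈ C0, (u : OnePoint ℂ) ∉ K)
    (hfr : ∃ᶠ k : ℕ in atTop, (gg a b)^[k] z ∈ C0) : False := by
  obtain ⟨f, hf⟩ : ∃ f, f = gg a b := ⟨_, rfl⟩
  obtain ⟨U, hU⟩ : ∃ U, U = UP b := ⟨_, rfl⟩
  -- the radius
  have hKo : IsOpen {u : ℂ | (u : OnePoint ℂ) ∉ K} := hKc.isOpen_compl.preimage OnePoint.continuous_coe
  obtain ⟨δ', hδ'0, hδ'⟩ := hC0.exists_thickening_subset_open hKo hCK
  obtain ⟨R0, hR0⟩ := hC0.isBounded.exists_norm_le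
  have hKK := Pool.Agent.H80.AJ.one_le_KK
  have hKp := Pool.Agent.H80.AJ.KK_pos
  obtain ⟨ε1, hε1, hnc⟩ := nc_l h hX (δ' := δ' / 2) (M := 1 + Pool.Agent.H80.AJ.KK * δ') (R0 := R0)
    (by linarith)
  obtain ⟨N, hN⟩ := h.leo (ball z (δ' * ε1 / 32)) isOpen_ball ⟨z, mem_ball_self (by positivity)⟩ (δ' + 1)
  obtain ⟨k, hk, hkC⟩ := frequently_atTop.1 hfr N
  have hkB := hR0 _ hkC
  have hbP : ∀ u ∈ ball ((gg a b)^[k] z) δ', (u : OnePoint ℂ) ∉ K := fun u hu =>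
    hδ' (mem_thickening_iff.2 ⟨_, hkC, hu⟩)
  obtain ⟨G, hGd, hG0, hG1'⟩ := lift_l hcop hd hfi hK hcK hδ'0 hbP k z (fun j _ => hzU j) rfl
  have hG1 : ∀ u ∈ ball ((gg a b)^[k] z) δ', G u ∈ oU (gg a b) (UP b) k ∧ (gg a b)^[k] (G u) = u := fun u hu =>
    ⟨(hG1' u hu).1, (hG1' u hu).2.1⟩
  rw [← hf, ← hU] at h hX hG1 hnc hN
  rw [← hf] at hkB hGd hG0
  obtain ⟨y, hy⟩ : ∃ y, y = f^[k] z := ⟨_, rfl⟩
  rw [← hy] at hkB hGd hG0 hG1
  have hGi : InjOn G (ball y δ') := by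
    intro u hu u' hu' he
    rw [← (hG1 u hu).2, ← (hG1 u' hu').2, he]
  have hsub : ball y (δ' / 2) ⊆ ball y δ' := ball_subset_ball (by linarith)
  have hder : deriv G y ≠ 0 := by
    have hym : y ∈ ball y δ' := mem_ball_self hδ'0
    have hGy : DifferentiableAt ℂ G y := hGd.differentiableAt (isOpen_ball.mem_nhds hym)
    obtain ⟨ho, hfd, -⟩ := it_eq h.Uo h.fd (hX.hd i0) (hX.eq i0) k
    have hfy : DifferentiableAt ℂ f^[k] (G y) := hfd.differentiableAt (ho.mem_nhds (hG1 y hym).1)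
    have h2 : HasDerivAt (f^[k] ∘ G) (deriv f^[k] (G y) * deriv G y) y := hfy.hasDerivAt.comp y hGy.hasDerivAt
    have h3 : HasDerivAt (f^[k] ∘ G) 1 y := (hasDerivAt_id y).congr_of_eventuallyEq (by
      filter_upwards [isOpen_ball.mem_nhds hym] with u hu
      exact (hG1 u hu).2)
    have h4 := h2.unique h3
    intro h5
    rw [h5, mul_zero] at h4
    exact zero_ne_one h4
  have hσ : 0 < ‖deriv G y‖ := norm_pos_iff.2 hder
  have hy0 : y ∈ closedBall y (δ' / 2) := mem_closedBall_self (by linarith)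
  have h1 := hnc z hz k y ‖deriv G y‖ G hkB hσ (hGd.mono hsub)
    (fun u hu => ⟨(hG1 u (hsub hu)).1, (hG1 u (hsub hu)).2, by
      have h4 := Pool.Agent.H80.AJ.distort_lip hδ'0 hGd hGi (w := u) (w' := y) (v := y)
        (ball_subset_closedBall hu) hy0 hy0
      rw [hG0] at h4
      have h5 : ‖u - y‖ ≤ δ' := by
        have := mem_ball_iff_norm.1 hu
        linarith
      calc ‖G u - z‖ ≤ Pool.Agent.H80.AJ.KK * ‖deriv G y‖ * ‖u - y‖ := h4
        _ ≤ Pool.Agent.H80.AJ.KK * ‖deriv G y‖ * δ' := by gcongr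
        _ ≤ (1 + Pool.Agent.H80.AJ.KK * δ') * ‖deriv G y‖ := by nlinarith⟩) (by nlinarith [mul_pos hKp hδ'0])
  have h2 := Pool.Agent.H80.AJ.univ_cover (by linarith : 0 < δ' / 2) (hGd.mono hsub) (hGi.mono hsub)
  rw [hG0] at h2
  have h3 : ball z (δ' * ε1 / 32) ⊆ G '' ball y (δ' / 2) := by
    refine Subset.trans (ball_subset_ball ?_) h2
    have : δ' * ε1 ≤ δ' * ‖deriv G y‖ := by gcongr
    linarith
  have h4 : ∀ w ∈ ball (0 : ℂ) (δ' + 1), w ∈ ball y (δ' / 2) := by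
    intro w hw
    obtain ⟨x, hx, rfl⟩ := hN k hk hw
    obtain ⟨u, hu, hux⟩ := h3 hx.1
    rw [← hux, (hG1 u (hsub hu)).2]
    exact hu
  have h5 := mem_ball_iff_norm.1 (h4 ((δ' : ℝ) : ℂ) (by
    rw [mem_ball_zero_iff, Complex.norm_real, Real.norm_eq_abs, abs_of_pos hδ'0]
    linarith))
  have h6 := mem_ball_iff_norm.1 (h4 0 (mem_ball_self (by linarith)))
  have h7 : ‖((δ' : ℝ) : ℂ) - 0‖ ≤ ‖((δ' : ℝ) : ℂ) - y‖ + ‖(0 : ℂ) - y‖ := by
    calc ‖((δ' : ℝ) : ℂ) - 0‖ = ‖(((δ' : ℝ) : ℂ) - y) - (0 - y)‖ := by congr 1; ring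
      _ ≤ _ := norm_sub_le _ _
  rw [sub_zero, Complex.norm_real, Real.norm_eq_abs, abs_of_pos hδ'0] at h7
  linarith

/-- the collar -/
theorem col {f : OnePoint ℂ → OnePoint ℂ} {S : Set (OnePoint ℂ)} (hSf : ∀ x ∈ S, f x ∈ S) {s0 δ1 : ℝ} (hs0 : 0 < s0) (hδ1 : 0 < δ1)
    (huc : ∀ x y, chord x y < δ1 → chord (f x) (f y) < s0) {x : OnePoint ℂ}
    (hfr : ∃ᶠ n : ℕ in atTop, ∃ p ∈ S, chord (f^[n] x) p < min δ1 s0)
    (hnt : ¬ ∀ ε : ℝ, 0 < ε → ∀ᶠ n : ℕ in atTop, ∃ p ∈ S, chord (f^[n] x) p < ε) :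
    ∃ ε : ℝ, 0 < ε ∧ ∃ᶠ n : ℕ in atTop, (∃ p ∈ S, chord (f^[n] x) p < s0) ∧ ∀ p ∈ S, ε ≤ chord (f^[n] x) p := by
  push Not at hnt
  obtain ⟨ε0, hε0, hnt⟩ := hnt
  refine ⟨min ε0 (min δ1 s0), by positivity, ?_⟩
  rw [frequently_atTop]
  intro N
  by_contra hcon
  push Not at hcon
  -- a time near `S`
  obtain ⟨m, hm, hm1⟩ := frequently_atTop.1 hfr N
  have hall : ∀ k : ℕ, ∃ p ∈ S, chord (f^[m + k] x) p < min δ1 s0 := by
    intro k
    induction k with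
    | zero => exact hm1
    | succ k ih =>
      obtain ⟨p, hp, hp1⟩ := ih
      have h1 : chord (f^[m + (k + 1)] x) (f p) < s0 := by
        rw [← Nat.add_assoc, Function.iterate_succ_apply']
        exact huc _ _ (hp1.trans_le (min_le_left _ _))
      obtain ⟨q, hq, hq1⟩ := hcon (m + (k + 1)) (by omega) ⟨f p, hSf p hp, h1⟩
      exact ⟨q, hq, hq1.trans_le (min_le_right _ _)⟩
  obtain ⟨n, hn, hn1⟩ := frequently_atTop.1 hnt m
  obtain ⟨p, hp, hp1⟩ := hall (n - m)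
  rw [Nat.add_sub_cancel' hn] at hp1
  obtain ⟨q, hq, hq1⟩ := hcon n (by omega) ⟨p, hp, hp1.trans_le (min_le_right _ _)⟩
  exact absurd (hq1.trans_le (min_le_left _ _)) (not_lt.2 (hn1 q hq))

end Pool.Agent.H66.IV
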