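import Pool.Agent.H66.IV.Smi
import Pool.Agent.H66.IL.FXS

/-!
# LOC (MP_8f2e1c), Julia set = sphere: the fields from an invariant line field

`fxs_in`: as `fxs` (H66/IL/FXS), from a bounded measurable invariant line field `ν` and a measurable set `A` with `0 < volume {z ∈ A | ν z ≠ 0}`: the set `E` is in `A` (in the chart).
-/

set_option autoImplicit false

open Filter Topology Polynomial Metric Set MeasureTheory

namespace Pool.Agent.H66.IV

open Pool.Agent.H44.Fatou (rat rat_continuous rat_coe rat_coe_of_ne pt crit_coe)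
open Pool.Agent.H32.BT Pool.Agent.H79.Eul Pool.Agent.H79.Par
open Pool.Agent.H35.EX Pool.Agent.H44.RR Pool.Agent.H56.HR Pool.Agent.H44.RC Pool.Agent.H47.RJ
open Pool.Agent.H47.NM Pool.Agent.H47.NN Pool.Agent.H44.ND Pool.Agent.H79.ES Pool.Agent.H44.RG
open Pool.Agent.H44.CP Pool.Agent.H47.PS Pool.Agent.H64.NC
open Pool.Agent.H61.TT (gg ww)
open Pool.Agent.H57.CP (tD)
open Pool.Agent.H66.UP
open Pool.Agent.H66.IL (em SFX TT str yex scn shl sdm v_inj)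

variable {d : ℕ} {v : E d}

theorem fxs_in (hd : 2 ≤ d) (hcop : IsCoprime (pol v.1) (pol v.2)) (hdeg : max (pol v.1).natDegree (pol v.2).natDegree = d)
    (hup : ¬ Up v) (hJ : JS (Rf v) = univ) (h0 : Rf v ((0 : ℂ) : OnePoint ℂ) = ((0 : ℂ) : OnePoint ℂ))
    (h1 : Rf v ((1 : ℂ) : OnePoint ℂ) = ((1 : ℂ) : OnePoint ℂ)) (hi : Rf v OnePoint.infty = OnePoint.infty)
    {ν : ℂ → ℂ} (hm : Measurable ν) {C0 : ℝ} (hbν : ∀ z, ‖ν z‖ ≤ C0)
    (hinv : ∀ᵐ z : ℂ, (pol v.2).eval z ≠ 0 → ν (gg (pol v.1) (pol v.2) z) * (starRingEnd ℂ) (Pool.Agent.H61.TT.dg (pol v.1) (pol v.2) z) =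
      ν z * Pool.Agent.H61.TT.dg (pol v.1) (pol v.2) z)
    {A : Set ℂ} (hA : MeasurableSet A) (hAp : 0 < volume {z ∈ A | ν z ≠ 0})
    {q : ℂ} {N : ℕ} {g : ℂ → ℂ} {U : Set ℂ} (hU : IsOpen U) (hg : DifferentiableOn ℂ g U)
    (he : ∀ w ∈ U, (Rf v)^[N] (em q w) = em q (g w)) :
    ∃ (E : Set ℂ) (Y h μ : Fin (2 * d + 1) → ℂ → ℂ) (i0 : Fin (2 * d + 1)) (b0 : ℝ), SFX g U E (2 * d + 1) Y h μ i0 b0 ∧
      ∀ w ∈ E, w ≠ 0 ∧ q + 1 / w ∈ A := by
  have hbn : pol v.2 ≠ 0 := by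
    intro hb
    rw [hb, isCoprime_zero_right] at hcop
    rw [hb, natDegree_zero, natDegree_eq_zero_of_isUnit hcop] at hdeg
    simp at hdeg
    omega
  obtain ⟨Vn, hVn⟩ : ∃ V : ℕ → ℂ → ℂ, ∀ j ≤ 2 * d, VelP (pol v.1) (pol v.2) (X ^ j) (V j) := by
    have h2 : ∀ j : ℕ, ∃ V : ℂ → ℂ, j ≤ 2 * d → VelP (pol v.1) (pol v.2) (X ^ j) V := fun j => by
      by_cases hj : j ≤ 2 * d
      · obtain ⟨V, hV⟩ := vel_s hd hcop hdeg hup hJ h0 h1 hi (η := X ^ j) ((natDegree_X_pow_le _).trans hj)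
        exact ⟨V, fun _ => hV⟩
      · exact ⟨0, fun h => absurd h hj⟩
    choose V hV using h2
    exact ⟨V, hV⟩
  obtain ⟨c0, hc0⟩ := uni hd hcop hdeg hup hJ hi hVn hm hbν hinv
  obtain ⟨V, hVe⟩ : ∃ V : Fin (2 * d + 1) → ℂ → ℂ, V = fun i : Fin (2 * d + 1) => Vn (i : ℕ) := ⟨_, rfl⟩
  have hV : ∀ i : Fin (2 * d + 1), VelP (pol v.1) (pol v.2) (X ^ (i : ℕ)) (V i) := fun i => by
    rw [hVe]
    exact hVn i (by have := i.2; omega)
  have hcV : ∀ z, Vp ν z = ∑ i : Fin (2 * d + 1), c0 (i : ℕ) * V i z := fun z => by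
    rw [hc0 z, Finset.sum_range, hVe]
  -- growth
  obtain ⟨C1, hC1⟩ : ∃ C : ℝ, ∀ i z, ‖V i z‖ ≤ C * (1 + ‖z‖ ^ 2) := by
    choose B hB using fun i => (hV i).2.2.2
    refine ⟨∑ i, |B i|, fun i z => (hB i z).trans ?_⟩
    have h2 : B i ≤ ∑ i, |B i| := (le_abs_self _).trans (Finset.single_le_sum (f := fun i => |B i|)
      (fun j _ => abs_nonneg _) (Finset.mem_univ i))
    have h3 : (0 : ℝ) ≤ 1 + ‖z‖ ^ 2 := by positivity
    exact mul_le_mul_of_nonneg_right h2 h3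
  obtain ⟨C, μ, E, i0, b0, hC, hb, hb0, hE, hqE, hp, hlb, hT, hEA⟩ := smu_in (fun i => (hV i).1) (fun i => (hV i).2.2.1) q hm hbν hcV hA hAp
  have hY1 : ∀ i, ∃ Y : ℂ → ℂ, Continuous Y ∧ (∀ w : ℂ, w ≠ 0 → Y w = -(w ^ 2 * V i (q + 1 / w))) ∧
      ∃ C : ℝ, ∀ w : ℂ, ‖Y w‖ ≤ C * (1 + ‖w‖ ^ 2) := by
    intro i
    obtain ⟨l, hl⟩ := scn hd hcop hdeg hup hJ hi ((natDegree_X_pow_le _).trans (by have := i.2; omega)) (hV i)
    exact yex (hV i).1 hl q
  choose Y hYc hYV CY hCY using hY1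
  obtain ⟨E', μ', hE', hp', hμ', hT'⟩ := str hE hqE hp hb hYV hT
  have hC0 : 0 < C := by linarith
  have hC0' : (C : ℂ) ≠ 0 := by exact_mod_cast hC0.ne'
  obtain ⟨h, hh⟩ : ∃ h : Fin (2 * d + 1) → ℂ → ℂ, h = fun i w => Y i (g w) - deriv g w * Y i w := ⟨_, rfl⟩
  have hhd : ∀ i, DifferentiableOn ℂ (h i) U := by
    intro i
    rw [hh]
    exact shl hd hcop hdeg (hV i) (hYc i) (hYV i) hU hg he
  refine ⟨E', fun i w => Y i w / C, fun i w => h i w / C, fun i w => μ' i w / C, i0, b0 / C, ?_, fun w hw => ⟨?_, hEA (hμ' i0 w hw).1⟩⟩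
  swap
  · rintro rfl
    have h2 := (hμ' i0 0 hw).1
    rw [div_zero, add_zero] at h2
    exact hqE h2
  have hYinj : ∀ c : Fin (2 * d + 1) → ℂ, (∀ z, ∑ i, c i * (Y i z / C) = 0) → c = 0 := by
    intro c hc
    refine v_inj hbn hV (c := c) ?_
    have h2 : ∀ z : ℂ, z ≠ q → ∑ i, c i * V i z = 0 := by
      intro z hz
      have h3 : z - q ≠ 0 := sub_ne_zero.2 hz
      have h4 : (1 / (z - q) : ℂ) ≠ 0 := one_div_ne_zero h3
      have h5 := hc (1 / (z - q))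
      have h6 : ∀ i, c i * (Y i (1 / (z - q)) / C) = -(1 / (z - q)) ^ 2 / C * (c i * V i z) := by
        intro i
        rw [hYV i _ h4, one_div_one_div, add_sub_cancel]
        ring
      rw [Finset.sum_congr rfl fun i _ => h6 i, ← Finset.mul_sum] at h5
      refine (mul_eq_zero.1 h5).resolve_left ?_
      exact div_ne_zero (neg_ne_zero.2 (pow_ne_zero 2 h4)) hC0'
    have h3 : Continuous fun z => ∑ i, c i * V i z := continuous_finsetSum _ fun i _ => continuous_const.mul (hV i).1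
    have h4 : Dense ({q}ᶜ : Set ℂ) := dense_compl_singleton q
    exact fun z => congrFun (h3.ext_on h4 continuous_const fun z hz => h2 z hz) z
  refine ⟨by positivity, fun i => (hYc i).div_const _, fun i => (hhd i).div_const _, ?_, hE', hp', ?_, ?_, ?_, ?_⟩
  · intro i w hw
    show Y i (g w) / C = deriv g w * (Y i w / C) + h i w / C
    rw [hh]
    show Y i (g w) / C = deriv g w * (Y i w / C) + (Y i (g w) - deriv g w * Y i w) / C
    ring
  · intro i w hw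
    show ‖μ' i w / C‖ ≤ 1
    rw [norm_div, Complex.norm_real, Real.norm_of_nonneg hC0.le, div_le_one hC0, (hμ' i w hw).2]
    exact hb i _
  · intro w hw
    show b0 / C ≤ ‖μ' i0 w / C‖
    rw [norm_div, Complex.norm_real, Real.norm_of_nonneg hC0.le, (hμ' i0 w hw).2]
    exact div_le_div_of_nonneg_right (hlb _ (hμ' i0 w hw).1) hC0.le
  · intro ε hε
    obtain ⟨ρ, hρ, h2⟩ := hT' (ε * C) (by positivity)
    refine ⟨ρ, hρ, fun i w hw r hr hrρ => ?_⟩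
    obtain ⟨H, hH, h3⟩ := h2 i w hw r hr hrρ
    refine ⟨fun u => H u / C, hH.div_const _, fun u hu => ?_⟩
    have h4 : Y i u / C - μ' i w / C * (starRingEnd ℂ) (u - w) - H u / C =
      (Y i u - μ' i w * (starRingEnd ℂ) (u - w) - H u) / C := by ring
    rw [h4, norm_div, Complex.norm_real, Real.norm_of_nonneg hC0.le, div_le_iff₀ hC0]
    have := h3 u hu
    nlinarith
  · intro β
    refine sdm (C := ∑ i, |CY i|) ?_ (by omega) hYinj β
    intro i w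
    rw [norm_div, Complex.norm_real, Real.norm_of_nonneg hC0.le, div_le_iff₀ hC0]
    have h2 : CY i ≤ ∑ i, |CY i| := (le_abs_self _).trans (Finset.single_le_sum (f := fun i => |CY i|)
      (fun j _ => abs_nonneg _) (Finset.mem_univ i))
    have h3 : (0 : ℝ) ≤ 1 + ‖w‖ ^ 2 := by positivity
    have h4 : 0 ≤ ∑ i, |CY i| := Finset.sum_nonneg fun i _ => abs_nonneg _
    calc ‖Y i w‖ ≤ CY i * (1 + ‖w‖ ^ 2) := hCY i w
      _ ≤ (∑ i, |CY i|) * (1 + ‖w‖ ^ 2) := mul_le_mul_of_nonneg_right h2 h3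
      _ ≤ (∑ i, |CY i|) * (1 + ‖w‖ ^ 2) * C := le_mul_of_one_le_right (by positivity) hC

end Pool.Agent.H66.IV
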