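import Pool.Agent.H66.IV.Pot
import Pool.Agent.H66.UP.KI3
import Pool.Agent.H66.IL.NZ

/-!
# LOC (MP_8f2e1c), Julia set = sphere: growth of the potential, entire functions of polynomial growth

`ent_pol`: an entire function with `‖f z‖ ≤ C (1 + ‖z‖) ^ κ` is a polynomial of degree at most `κ`. `vp_gr`: `‖Vp ν x‖ ≤ C ‖x‖ (1 + log ‖x‖)` for `‖x‖ ≥ 1` (`ki3_ka`).
-/

set_option autoImplicit false

open Filter Topology Polynomial Metric Set MeasureTheory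

namespace Pool.Agent.H66.IV

open Pool.Agent.H1.PU (KA ka_int)
open Pool.Agent.H66.UP (ki3_ka)

theorem ent_pol {f : ℂ → ℂ} (hf : Differentiable ℂ f) {κ : ℕ} {C : ℝ} (hC : ∀ z, ‖f z‖ ≤ C * (1 + ‖z‖) ^ κ) :
    ∃ R : Polynomial ℂ, R.natDegree ≤ κ ∧ ∀ z, f z = R.eval z := by
  induction κ generalizing f C with
  | zero =>
    refine ⟨Polynomial.C (f 0), by rw [natDegree_C], fun z => ?_⟩
    rw [eval_C]
    refine hf.apply_eq_apply_of_bounded ?_ z 0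
    rw [isBounded_iff_forall_norm_le]
    refine ⟨C, ?_⟩
    rintro _ ⟨y, rfl⟩
    have h1 := hC y
    rwa [pow_zero, mul_one] at h1
  | succ κ ih =>
    have hd : Differentiable ℂ (dslope f 0) := by
      rw [← differentiableOn_univ]
      exact (Complex.differentiableOn_dslope univ_mem).2 hf.differentiableOn
    obtain ⟨M, hM⟩ := (isCompact_closedBall (0 : ℂ) 1).exists_bound_of_continuousOn
      hd.continuous.continuousOn
    have hM0 : 0 ≤ M := (norm_nonneg _).trans (hM 0 (mem_closedBall_self zero_le_one))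
    have hC0 : 0 ≤ C := by
      have h1 := hC 0
      rw [norm_zero, add_zero, one_pow, mul_one] at h1
      exact (norm_nonneg _).trans h1
    have hone : ∀ z : ℂ, (1 : ℝ) ≤ (1 + ‖z‖) ^ κ := fun z =>
      one_le_pow₀ (by linarith [norm_nonneg z])
    have hmain : ∀ z, ‖dslope f 0 z‖ ≤ (4 * C + M) * (1 + ‖z‖) ^ κ := by
      intro z
      rcases le_total ‖z‖ 1 with h | h
      · have h1 := hM z (by rw [mem_closedBall_zero_iff]; exact h)
        calc ‖dslope f 0 z‖ ≤ M * 1 := by rw [mul_one]; exact h1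
          _ ≤ (4 * C + M) * (1 + ‖z‖) ^ κ :=
            mul_le_mul (by linarith) (hone z) zero_le_one (by linarith)
      · have h1 : (z - 0) • dslope f 0 z = f z - f 0 := sub_smul_dslope f 0 z
        rw [sub_zero] at h1
        have h2 : ‖z‖ * ‖dslope f 0 z‖ = ‖f z - f 0‖ := by
          rw [← norm_smul, h1]
        have hpos : 0 < ‖z‖ := lt_of_lt_of_le one_pos h
        have h0 : ‖f 0‖ ≤ C := by
          have h3 := hC 0
          rwa [norm_zero, add_zero, one_pow, mul_one] at h3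
        have h4 : C * 1 ≤ C * (1 + ‖z‖) ^ κ := mul_le_mul_of_nonneg_left (hone z) hC0
        have h5 : 0 ≤ C * (1 + ‖z‖) ^ κ := by linarith
        have h6 : ‖z‖ * ‖dslope f 0 z‖ ≤ ‖z‖ * (4 * C * (1 + ‖z‖) ^ κ) := by
          rw [h2]
          calc ‖f z - f 0‖ ≤ ‖f z‖ + ‖f 0‖ := norm_sub_le _ _
            _ ≤ C * (1 + ‖z‖) ^ (κ + 1) + C := add_le_add (hC z) h0
            _ = C * (1 + ‖z‖) ^ κ * (1 + ‖z‖) + C := by rw [pow_succ]; ring
            _ ≤ C * (1 + ‖z‖) ^ κ * (2 * ‖z‖) + C * (1 + ‖z‖) ^ κ * ‖z‖ := by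
              refine add_le_add (mul_le_mul_of_nonneg_left (by linarith) h5) ?_
              calc C = C * 1 := (mul_one C).symm
                _ ≤ C * (1 + ‖z‖) ^ κ := h4
                _ ≤ C * (1 + ‖z‖) ^ κ * ‖z‖ := le_mul_of_one_le_right h5 h
            _ ≤ ‖z‖ * (4 * C * (1 + ‖z‖) ^ κ) := by nlinarith
        refine (le_of_mul_le_mul_left h6 hpos).trans ?_
        exact mul_le_mul_of_nonneg_right (by linarith) (zero_le_one.trans (hone z))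
    obtain ⟨R, hR, hz⟩ := ih hd hmain
    refine ⟨Polynomial.C (f 0) + X * R, ?_, fun z => ?_⟩
    · refine (natDegree_add_le _ _).trans (max_le ?_ ?_)
      · rw [natDegree_C]
        omega
      · exact natDegree_mul_le.trans (by rw [natDegree_X]; omega)
    · rw [eval_add, eval_C, eval_mul, eval_X, ← hz z]
      have h1 : (z - 0) • dslope f 0 z = f z - f 0 := sub_smul_dslope f 0 z
      rw [sub_zero, smul_eq_mul] at h1
      rw [h1]
      ring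

theorem pol_gr (P : Polynomial ℂ) {κ : ℕ} (h : P.natDegree ≤ κ) : ∃ C : ℝ, 0 ≤ C ∧ ∀ z : ℂ, ‖P.eval z‖ ≤ C * (1 + ‖z‖) ^ κ := by
  refine ⟨∑ j ∈ Finset.range (κ + 1), ‖P.coeff j‖, Finset.sum_nonneg fun _ _ => norm_nonneg _, fun z => ?_⟩
  rw [eval_eq_sum_range' (Nat.lt_succ_of_le h), Finset.sum_mul]
  refine (norm_sum_le _ _).trans (Finset.sum_le_sum fun j hj => ?_)
  rw [norm_mul, norm_pow]
  refine mul_le_mul_of_nonneg_left ?_ (norm_nonneg _)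
  have h1 : 1 ≤ 1 + ‖z‖ := by linarith [norm_nonneg z]
  calc ‖z‖ ^ j ≤ (1 + ‖z‖) ^ j := pow_le_pow_left₀ (norm_nonneg _) (by linarith) j
    _ ≤ (1 + ‖z‖) ^ κ := pow_le_pow_right₀ h1 (Nat.lt_succ_iff.1 (Finset.mem_range.1 hj))

/-- the integral of the kernel -/
private theorem ka_l1 : ∃ C : ℝ, 0 < C ∧ (∀ x : ℂ, ‖x‖ ≤ 1 → ∫⁻ w : ℂ, ‖KA x w‖ₑ ≤ ENNReal.ofReal C) ∧
    ∀ x : ℂ, 1 ≤ ‖x‖ → ∫⁻ w : ℂ, ‖KA x w‖ₑ ≤ ENNReal.ofReal (C * ‖x‖ * (1 + Real.log ‖x‖)) := by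
  obtain ⟨C, hC, h⟩ := ki3_ka
  have k0 : ∀ w, KA 0 w = 0 := fun w => by unfold KA; rw [zero_mul, zero_div]
  have k1 : ∀ w, KA 1 w = 0 := fun w => by unfold KA; rw [sub_self, mul_zero, zero_div]
  refine ⟨C, hC, fun x hx => ?_, fun x hx => ?_⟩
  · by_cases h0 : x = 0
    · rw [h0]
      have : ∀ w : ℂ, ‖KA 0 w‖ₑ = 0 := fun w => by rw [k0, enorm_zero]
      simp only [this, lintegral_zero]
      exact zero_le
    · have h1 := h x 0 1 h0 (by rw [sub_zero, sub_zero, norm_one]; exact hx)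
      simp only [k0, k1, sub_zero, mul_zero, div_one] at h1
      refine h1.trans (ENNReal.ofReal_le_ofReal ?_)
      have hp : 0 < ‖x‖ := norm_pos_iff.2 h0
      rw [norm_one, one_div]
      have h2 := Real.log_le_sub_one_of_pos (inv_pos.2 hp)
      have h3 : ‖x‖ * (1 + Real.log ‖x‖⁻¹) ≤ 1 := by
        calc ‖x‖ * (1 + Real.log ‖x‖⁻¹) ≤ ‖x‖ * ‖x‖⁻¹ := mul_le_mul_of_nonneg_left (by linarith) hp.le
          _ = 1 := mul_inv_cancel₀ hp.ne'
      calc C * ‖x‖ * (1 + Real.log ‖x‖⁻¹) = C * (‖x‖ * (1 + Real.log ‖x‖⁻¹)) := by ring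
        _ ≤ C * 1 := mul_le_mul_of_nonneg_left h3 hC.le
        _ = C := mul_one C
  · have hp : 0 < ‖x‖ := by linarith
    have hx0 : x ≠ 0 := norm_pos_iff.1 hp
    have h1 := h 1 0 x one_ne_zero (by rw [sub_zero, sub_zero, norm_one]; exact hx)
    simp only [k0, k1, sub_zero, norm_one, mul_one, div_one, zero_sub] at h1
    have h2 : ∀ w, ‖KA x w‖ₑ = ‖x‖ₑ * ‖-(1 / x * KA x w)‖ₑ := by
      intro w
      rw [← enorm_mul, ← enorm_neg]
      congr 1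
      field_simp
    have h3 : ∫⁻ w : ℂ, ‖KA x w‖ₑ = ‖x‖ₑ * ∫⁻ w : ℂ, ‖-(1 / x * KA x w)‖ₑ := by
      rw [← lintegral_const_mul' _ _ enorm_ne_top]
      exact lintegral_congr h2
    have hl : 0 ≤ Real.log ‖x‖ := Real.log_nonneg hx
    rw [h3]
    refine (mul_le_mul_right h1 _).trans (le_of_eq ?_)
    rw [← ofReal_norm, ← ENNReal.ofReal_mul (norm_nonneg _)]
    congr 1
    ring

theorem vp_gr {ν : ℂ → ℂ} {C0 : ℝ} (hb : ∀ z, ‖ν z‖ ≤ C0) : ∃ C : ℝ, 0 ≤ C ∧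
    (∀ x : ℂ, ‖x‖ ≤ 1 → ‖Vp ν x‖ ≤ C) ∧ ∀ x : ℂ, 1 ≤ ‖x‖ → ‖Vp ν x‖ ≤ C * ‖x‖ * (1 + Real.log ‖x‖) := by
  obtain ⟨C, hC, h1, h2⟩ := ka_l1
  have hC0 : 0 ≤ C0 := (norm_nonneg _).trans (hb 0)
  have hmain : ∀ (x : ℂ) (t : ℝ), 0 ≤ t → ∫⁻ w : ℂ, ‖KA x w‖ₑ ≤ ENNReal.ofReal t → ‖Vp ν x‖ ≤ C0 * t := by
    intro x t ht h
    have h3 : ‖∫ w, ν w * KA x w‖ ≤ C0 * t := by
      have h4 : ‖∫ w, ν w * KA x w‖ₑ ≤ ENNReal.ofReal (C0 * t) := by
        refine (enorm_integral_le_lintegral_enorm _).trans ?_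
        rw [ENNReal.ofReal_mul hC0]
        refine le_trans ?_ (mul_le_mul_right h _)
        rw [← lintegral_const_mul' _ _ ENNReal.ofReal_ne_top]
        refine lintegral_mono fun w => ?_
        rw [enorm_mul]
        refine mul_le_mul_left ?_ _
        rw [← ofReal_norm]
        exact ENNReal.ofReal_le_ofReal (hb w)
      rw [← ofReal_norm] at h4
      exact (ENNReal.ofReal_le_ofReal_iff (mul_nonneg hC0 ht)).1 h4
    unfold Vp
    rw [norm_mul]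
    have h5 : ‖-(1 / (Real.pi : ℂ))‖ ≤ 1 := by
      rw [norm_neg, norm_div, norm_one, Complex.norm_real, Real.norm_of_nonneg Real.pi_pos.le, div_le_one Real.pi_pos]
      linarith [Real.pi_gt_three]
    calc ‖-(1 / (Real.pi : ℂ))‖ * ‖∫ w, ν w * KA x w‖ ≤ 1 * (C0 * t) :=
          mul_le_mul h5 h3 (norm_nonneg _) zero_le_one
      _ = C0 * t := one_mul _
  refine ⟨C0 * C, mul_nonneg hC0 hC.le, fun x hx => hmain x C hC.le (h1 x hx), fun x hx => ?_⟩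
  have hl : 0 ≤ Real.log ‖x‖ := Real.log_nonneg hx
  refine (hmain x _ (by positivity) (h2 x hx)).trans (le_of_eq (by ring))

theorem vp_gr2 {ν : ℂ → ℂ} {C0 : ℝ} (hb : ∀ z, ‖ν z‖ ≤ C0) : ∃ C : ℝ, 0 ≤ C ∧ ∀ x : ℂ, ‖Vp ν x‖ ≤ C * (1 + ‖x‖ ^ 2) := by
  obtain ⟨C, hC, h1, h2⟩ := vp_gr hb
  refine ⟨C, hC, fun x => ?_⟩
  rcases le_total ‖x‖ 1 with h | h
  · refine (h1 x h).trans ?_
    nlinarith [sq_nonneg ‖x‖]
  · refine (h2 x h).trans ?_
    have h3 := Real.log_le_sub_one_of_pos (show 0 < ‖x‖ by linarith)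
    have h4 : C * ‖x‖ * (1 + Real.log ‖x‖) ≤ C * ‖x‖ * ‖x‖ := mul_le_mul_of_nonneg_left (by linarith) (by positivity)
    nlinarith

end Pool.Agent.H66.IV
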