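import Pool.Agent.H66.IL.TZ

/-!
# LOC (MP_8f2e1c), LEMMA INV: the potential of an invariant line field is a velocity

`V` continuous with `∂̄ V = μ` (in the form `RI V = 2 i ∫ μ` on all rectangles), `μ` bounded, `μ (f z) * conj (f' z) = μ z * f' z` for almost all `z ∈ U`, `f` holomorphic on the open set `U`:
then `h z = V (f z) - f' z * V z` is holomorphic on `U`.

PROOF. At `z0` with `f' z0 ≠ 0`: `f` is injective on a ball `B(z0, 4 r)`, `D = B(z0, r)`. `V - Ct (μ 1_D)` is holomorphic on `D`, `V - Ct (μ 1_(f D))` on `f D` (Morera), and by the change of variables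
`Ct (μ 1_(f D)) (f z) - f' z * Ct (μ 1_D) z = (1 / π) ∫_D μ y * K y z`, `K y z = f' y ^ 2 / (f z - f y) - f' z / (z - y)`, which is holomorphic in `z` (the singularity `z = y` is removable) and bounded: differentiate under the integral sign.
At the zeros of `f'`: removable singularities.
-/

set_option autoImplicit false

open Filter Topology Metric Set MeasureTheory

namespace Pool.Agent.H66.IV

open Pool.Agent.H66.IL (Ct Rt RI ct_ri ct_cont ri_add ri_smul mor)

/-- the kernel, with the removable singularity removed -/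
private noncomputable def Kh (f : ℂ → ℂ) (y z : ℂ) : ℂ :=
  dslope (fun w => deriv f y ^ 2 - deriv f w * dslope f y w) y z / dslope f y z

private theorem kh_eq {f : ℂ → ℂ} {y z : ℂ} (h : z ≠ y) (h2 : f z ≠ f y) :
    Kh f y z = deriv f y ^ 2 / (f z - f y) - deriv f z / (z - y) := by
  have h1 : z - y ≠ 0 := sub_ne_zero.2 h
  have h3 : f z - f y ≠ 0 := sub_ne_zero.2 h2
  unfold Kh
  rw [dslope_of_ne _ h, dslope_of_ne _ h, slope_def_field, slope_def_field, dslope_same, dslope_of_ne _ h, slope_def_field]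
  field_simp
  ring

private theorem kh_diff {f : ℂ → ℂ} {z0 : ℂ} {R c : ℝ} (hc : 0 < c) (hf : DifferentiableOn ℂ f (ball z0 R))
    (hl : ∀ y ∈ ball z0 R, ∀ z ∈ ball z0 R, c * ‖z - y‖ ≤ ‖f z - f y‖) {y : ℂ} (hy : y ∈ ball z0 R) :
    DifferentiableOn ℂ (Kh f y) (ball z0 R) ∧ ∀ z ∈ ball z0 R, z ≠ y → f z ≠ f y := by
  have hn : ball z0 R ∈ 𝓝 y := isOpen_ball.mem_nhds hy
  have h1 : DifferentiableOn ℂ (dslope f y) (ball z0 R) := (Complex.differentiableOn_dslope hn).2 hf
  have hne : ∀ z ∈ ball z0 R, z ≠ y → f z ≠ f y := by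
    intro z hz hzy he
    have h2 := hl y hy z hz
    rw [he, sub_self, norm_zero] at h2
    have h3 : 0 < ‖z - y‖ := norm_pos_iff.2 (sub_ne_zero.2 hzy)
    nlinarith
  have hq : ∀ z ∈ ball z0 R, dslope f y z ≠ 0 := by
    intro z hz
    by_cases hzy : z = y
    · rw [hzy, dslope_same]
      intro h0
      have h2 : HasDerivAt f 0 y := h0 ▸ (hf.differentiableAt hn).hasDerivAt
      have h3 := (hasDerivAt_iff_tendsto_slope.1 h2).norm
      rw [norm_zero] at h3
      have h4 : ∀ᶠ z in 𝓝[≠] y, c ≤ ‖slope f y z‖ := by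
        filter_upwards [self_mem_nhdsWithin, mem_nhdsWithin_of_mem_nhds hn] with z hz1 hz2
        have hz1' : z ≠ y := hz1
        have h5 : 0 < ‖z - y‖ := norm_pos_iff.2 (sub_ne_zero.2 hz1')
        rw [slope_def_field, norm_div, le_div_iff₀ h5]
        exact hl y hy z hz2
      have h5 := ge_of_tendsto h3 h4
      linarith
    · rw [dslope_of_ne _ hzy, slope_def_field]
      exact div_ne_zero (sub_ne_zero.2 (hne z hz hzy)) (sub_ne_zero.2 hzy)
  refine ⟨?_, hne⟩
  have h2 : DifferentiableOn ℂ (fun w => deriv f y ^ 2 - deriv f w * dslope f y w) (ball z0 R) :=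
    (differentiableOn_const _).sub ((hf.deriv isOpen_ball).mul h1)
  exact DifferentiableOn.fun_div ((Complex.differentiableOn_dslope hn).2 h2) h1 hq

/-- the bound on the half ball -/
private theorem kh_bd {f : ℂ → ℂ} {z0 : ℂ} {r c S : ℝ} (hr : 0 < r) (hc : 0 < c) (hf : DifferentiableOn ℂ f (ball z0 (4 * r)))
    (hl : ∀ y ∈ ball z0 (4 * r), ∀ z ∈ ball z0 (4 * r), c * ‖z - y‖ ≤ ‖f z - f y‖)
    (hS : ∀ z ∈ closedBall z0 (3 * r), ‖deriv f z‖ ≤ S) {y : ℂ} (hy : y ∈ ball z0 r) {z : ℂ} (hz : z ∈ closedBall z0 (3 * r)) :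
    ‖Kh f y z‖ ≤ S ^ 2 / (c * (2 * r)) + S / (2 * r) := by
  have hS0 : 0 ≤ S := (norm_nonneg _).trans (hS z0 (mem_closedBall_self (by positivity)))
  have hy4 : y ∈ ball z0 (4 * r) := ball_subset_ball (by linarith) hy
  obtain ⟨h1, h2⟩ := kh_diff hc hf hl hy4
  have h3 : DiffContOnCl ℂ (Kh f y) (ball z0 (3 * r)) := by
    refine (h1.mono ?_).diffContOnCl
    rw [closure_ball _ (by positivity)]
    exact closedBall_subset_ball (by linarith)
  refine Complex.norm_le_of_forall_mem_frontier_norm_le isBounded_ball h3 ?_ (by rw [closure_ball _ (by positivity)]; exact hz)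
  intro w hw
  rw [frontier_ball _ (by positivity)] at hw
  have hw3 : ‖w - z0‖ = 3 * r := by rw [← dist_eq_norm]; exact hw
  have hy3 : ‖y - z0‖ < r := by rw [← dist_eq_norm]; exact hy
  have hwc : w ∈ closedBall z0 (3 * r) := sphere_subset_closedBall hw
  have hw4 : w ∈ ball z0 (4 * r) := closedBall_subset_ball (by linarith) hwc
  have h4 : 2 * r ≤ ‖w - y‖ := by
    have h5 : ‖w - z0‖ ≤ ‖w - y‖ + ‖y - z0‖ := by
      have : w - z0 = (w - y) + (y - z0) := by ring
      rw [this]
      exact norm_add_le _ _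
    linarith
  have hwy : w ≠ y := by
    intro h
    rw [h, sub_self, norm_zero] at h4
    linarith
  rw [kh_eq hwy (h2 w hw4 hwy)]
  refine (norm_sub_le _ _).trans (add_le_add ?_ ?_)
  · rw [norm_div, norm_pow]
    have h5 : c * (2 * r) ≤ ‖f w - f y‖ := (mul_le_mul_of_nonneg_left h4 hc.le).trans (hl y hy4 w hw4)
    exact div_le_div₀ (by positivity) (pow_le_pow_left₀ (norm_nonneg _) (hS y (ball_subset_closedBall (ball_subset_ball (by linarith) hy))) 2)
      (by positivity) h5
  · rw [norm_div]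
    exact div_le_div₀ hS0 (hS w hwc) (by positivity) h4

private theorem kh_int {f μ : ℂ → ℂ} {z0 : ℂ} {r c C : ℝ} (hr : 0 < r) (hc : 0 < c) (hf : DifferentiableOn ℂ f (ball z0 (4 * r)))
    (hl : ∀ y ∈ ball z0 (4 * r), ∀ z ∈ ball z0 (4 * r), c * ‖z - y‖ ≤ ‖f z - f y‖)
    (hm : Measurable μ) (hb : ∀ z, ‖μ z‖ ≤ C) :
    DifferentiableAt ℂ (fun z => ∫ y in ball z0 r, μ y * Kh f y z) z0 := by
  have hC : 0 ≤ C := (norm_nonneg _).trans (hb 0)
  obtain ⟨S, hS⟩ : ∃ S : ℝ, ∀ z ∈ closedBall z0 (3 * r), ‖deriv f z‖ ≤ S := by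
    have h1 : ContinuousOn (deriv f) (closedBall z0 (3 * r)) :=
      ((hf.deriv isOpen_ball).mono (closedBall_subset_ball (by linarith))).continuousOn
    exact (isCompact_closedBall z0 (3 * r)).exists_bound_of_continuousOn h1
  have hS0 : 0 ≤ S := (norm_nonneg _).trans (hS z0 (mem_closedBall_self (by positivity)))
  obtain ⟨M, hM⟩ : ∃ M, M = S ^ 2 / (c * (2 * r)) + S / (2 * r) := ⟨_, rfl⟩
  have hM0 : 0 ≤ M := by rw [hM]; positivity
  have hKb : ∀ y ∈ ball z0 r, ∀ z ∈ closedBall z0 (3 * r), ‖Kh f y z‖ ≤ M := fun y hy z hz => hM ▸ kh_bd hr hc hf hl hS hy hz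
  have hKd : ∀ y ∈ ball z0 r, DifferentiableOn ℂ (Kh f y) (ball z0 (4 * r)) := fun y hy =>
    (kh_diff hc hf hl (ball_subset_ball (by linarith) hy)).1
  -- measurability in `y`
  have hfc : ContinuousOn f (ball z0 r) := (hf.mono (ball_subset_ball (by linarith))).continuousOn
  have hfd : ContinuousOn (deriv f) (ball z0 r) := ((hf.deriv isOpen_ball).mono (ball_subset_ball (by linarith))).continuousOn
  have hKm : ∀ z ∈ ball z0 (4 * r), AEStronglyMeasurable (fun y => μ y * Kh f y z) (volume.restrict (ball z0 r)) := by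
    intro z hz
    have h1 : AEStronglyMeasurable (fun y => μ y * (deriv f y ^ 2 / (f z - f y) - deriv f z / (z - y))) (volume.restrict (ball z0 r)) := by
      have a1 : AEStronglyMeasurable f (volume.restrict (ball z0 r)) := hfc.aestronglyMeasurable measurableSet_ball
      have a2 : AEStronglyMeasurable (deriv f) (volume.restrict (ball z0 r)) := hfd.aestronglyMeasurable measurableSet_ball
      have a3 : AEMeasurable (fun y => deriv f y ^ 2 / (f z - f y)) (volume.restrict (ball z0 r)) :=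
        (a2.aemeasurable.pow_const 2).div (aemeasurable_const.sub a1.aemeasurable)
      have a4 : AEMeasurable (fun y => deriv f z / (z - y)) (volume.restrict (ball z0 r)) :=
        aemeasurable_const.div (aemeasurable_const.sub aemeasurable_id')
      exact (hm.aemeasurable.mul (a3.sub a4)).aestronglyMeasurable
    refine h1.congr ?_
    have h2 : ∀ᵐ y ∂(volume.restrict (ball z0 r)), y ≠ z := by
      refine ae_restrict_of_ae ?_
      rw [ae_iff]
      simp
    filter_upwards [h2, ae_restrict_mem measurableSet_ball] with y hyz hy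
    rw [kh_eq hyz.symm ((kh_diff hc hf hl (ball_subset_ball (by linarith) hy)).2 z hz hyz.symm)]
  have hz0 : z0 ∈ ball z0 (4 * r) := mem_ball_self (by positivity)
  haveI : IsFiniteMeasure (volume.restrict (ball z0 r)) := isFiniteMeasure_restrict.2 measure_ball_lt_top.ne
  have hdb : ∀ y ∈ ball z0 r, ∀ z ∈ ball z0 r, ‖deriv (Kh f y) z‖ ≤ M / r := by
    intro y hy z hz
    refine Complex.norm_deriv_le_of_forall_mem_sphere_norm_le hr ?_ ?_
    · refine ((hKd y hy).mono ?_).diffContOnCl
      rw [closure_ball _ hr.ne']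
      intro w hw
      rw [mem_closedBall, dist_eq_norm] at hw
      rw [mem_ball, dist_eq_norm] at hz ⊢
      have : w - z0 = (w - z) + (z - z0) := by ring
      rw [this]
      refine (norm_add_le _ _).trans_lt ?_
      linarith
    · intro w hw
      refine hKb y hy w ?_
      rw [mem_sphere, dist_eq_norm] at hw
      rw [mem_ball, dist_eq_norm] at hz
      rw [mem_closedBall, dist_eq_norm]
      have : w - z0 = (w - z) + (z - z0) := by ring
      rw [this]
      refine (norm_add_le _ _).trans ?_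
      linarith
  have hder : ∀ y ∈ ball z0 r, ∀ z ∈ ball z0 r, HasDerivAt (fun z => μ y * Kh f y z) (μ y * deriv (Kh f y) z) z := by
    intro y hy z hz
    exact (((hKd y hy).differentiableAt (isOpen_ball.mem_nhds (ball_subset_ball (by linarith) hz))).hasDerivAt).const_mul _
  have key := hasDerivAt_integral_of_dominated_loc_of_deriv_le (μ := volume.restrict (ball z0 r)) (𝕜 := ℂ)
    (F := fun z y => μ y * Kh f y z) (F' := fun z y => μ y * deriv (Kh f y) z) (x₀ := z0) (s := ball z0 r)
    (bound := fun _ => C * (M / r)) (ball_mem_nhds z0 hr) ?_ ?_ ?_ ?_ ?_ ?_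
  · exact key.2.differentiableAt
  · filter_upwards [ball_mem_nhds z0 hr] with z hz
    exact hKm z (ball_subset_ball (by linarith) hz)
  · refine Integrable.of_bound (hKm z0 hz0) (C * M) ?_
    filter_upwards [ae_restrict_mem measurableSet_ball] with y hy
    rw [norm_mul]
    exact mul_le_mul (hb y) (hKb y hy z0 (mem_closedBall_self (by positivity))) (norm_nonneg _) hC
  · -- the derivative is a limit of difference quotients
    have ht : ∀ n : ℕ, z0 + ((r / (n + 2) : ℝ) : ℂ) ∈ ball z0 r := by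
      intro n
      rw [mem_ball, dist_eq_norm, add_sub_cancel_left, Complex.norm_real, Real.norm_of_nonneg (by positivity)]
      rw [div_lt_iff₀ (by positivity)]
      nlinarith [(Nat.cast_nonneg n : (0 : ℝ) ≤ n)]
    refine aestronglyMeasurable_of_tendsto_ae atTop
      (f := fun (n : ℕ) y => (((r / (n + 2) : ℝ) : ℂ))⁻¹ * (μ y * Kh f y (z0 + ((r / (n + 2) : ℝ) : ℂ)) - μ y * Kh f y z0)) ?_ ?_
    · intro n
      exact (((hKm _ (ball_subset_ball (by linarith) (ht n))).sub (hKm z0 hz0)).const_mul _)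
    · filter_upwards [ae_restrict_mem measurableSet_ball] with y hy
      have h1 := hder y hy z0 (mem_ball_self hr)
      have h2 := h1.tendsto_slope_zero
      have h3 : Tendsto (fun n : ℕ => ((r / (n + 2) : ℝ) : ℂ)) atTop (𝓝[≠] 0) := by
        refine tendsto_nhdsWithin_iff.2 ⟨?_, Eventually.of_forall fun n => ?_⟩
        · have h4 : Tendsto (fun n : ℕ => r / ((n : ℝ) + 2)) atTop (𝓝 0) :=
            Tendsto.div_atTop tendsto_const_nhds (tendsto_atTop_add_const_right _ _ tendsto_natCast_atTop_atTop)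
          have h5 := (Complex.continuous_ofReal.tendsto (0 : ℝ)).comp h4
          rw [Complex.ofReal_zero] at h5
          exact h5
        · have : (r / ((n : ℝ) + 2)) ≠ 0 := by positivity
          exact Complex.ofReal_ne_zero.2 this
      have h6 := h2.comp h3
      refine h6.congr fun n => ?_
      simp only [Function.comp_apply, smul_eq_mul]
  · filter_upwards [ae_restrict_mem measurableSet_ball] with y hy z hz
    rw [norm_mul]
    exact mul_le_mul (hb y) (hdb y hy z hz) (norm_nonneg _) hC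
  · exact integrable_const _
  · filter_upwards [ae_restrict_mem measurableSet_ball] with y hy z hz
    exact hder y hy z hz

/-- injectivity with a constant -/
private theorem loc_lo {f : ℂ → ℂ} {U : Set ℂ} (hU : IsOpen U) (hf : DifferentiableOn ℂ f U) {z0 : ℂ} (hz0 : z0 ∈ U)
    (h0 : deriv f z0 ≠ 0) : ∃ r c : ℝ, 0 < r ∧ 0 < c ∧ ball z0 (4 * r) ⊆ U ∧
      ∀ y ∈ ball z0 (4 * r), ∀ z ∈ ball z0 (4 * r), c * ‖z - y‖ ≤ ‖f z - f y‖ := by
  have h1 : HasStrictDerivAt f (deriv f z0) z0 := (hf.analyticAt (hU.mem_nhds hz0)).hasStrictDerivAt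
  have hp : 0 < ‖deriv f z0‖ := norm_pos_iff.2 h0
  have h2 := h1.isLittleO.def (half_pos hp)
  rw [nhds_prod_eq, Filter.eventually_prod_iff] at h2
  obtain ⟨pa, ha, pb, hb, hab⟩ := h2
  obtain ⟨R, hR, hR2⟩ := Metric.eventually_nhds_iff.1 ((ha.and hb).and (hU.mem_nhds hz0))
  refine ⟨R / 4, ‖deriv f z0‖ / 2, by positivity, by positivity, ?_, ?_⟩
  · intro z hz
    rw [mul_div_cancel₀ _ (by norm_num : (4 : ℝ) ≠ 0)] at hz
    exact (hR2 hz).2
  · intro y hy z hz
    rw [mul_div_cancel₀ _ (by norm_num : (4 : ℝ) ≠ 0)] at hy hz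
    have h3 := hab (hR2 hz).1.1 (hR2 hy).1.2
    simp only [ContinuousLinearMap.toSpanSingleton_apply, smul_eq_mul] at h3
    have h4 : ‖(z - y) * deriv f z0‖ ≤ ‖f z - f y - (z - y) * deriv f z0‖ + ‖f z - f y‖ := by
      have : (z - y) * deriv f z0 = -(f z - f y - (z - y) * deriv f z0) + (f z - f y) := by ring
      calc ‖(z - y) * deriv f z0‖ = ‖-(f z - f y - (z - y) * deriv f z0) + (f z - f y)‖ := by rw [← this]
        _ ≤ _ := by
          refine (norm_add_le _ _).trans ?_
          rw [norm_neg]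
    rw [norm_mul] at h4
    nlinarith

private theorem absdet (a : ℂ) : |((ContinuousLinearMap.toSpanSingleton ℂ a).restrictScalars ℝ : ℂ →L[ℝ] ℂ).det| = ‖a‖ ^ 2 := by
  have h1 : ((ContinuousLinearMap.toSpanSingleton ℂ a).restrictScalars ℝ : ℂ →L[ℝ] ℂ).det = ‖a‖ ^ 2 := by
    simp [ContinuousLinearMap.det, LinearMap.det_restrictScalars, Algebra.norm_complex_eq, Complex.normSq_eq_norm_sq]
  rw [h1, abs_of_nonneg (by positivity)]

/-- change of variables -/
private theorem cov {f : ℂ → ℂ} {D : Set ℂ} (hD : MeasurableSet D) (hd : ∀ y ∈ D, DifferentiableAt ℂ f y) (hi : InjOn f D)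
    (g : ℂ → ℂ) : ∫ u in f '' D, g u = ∫ y in D, ((‖deriv f y‖ ^ 2 : ℝ) : ℂ) * g (f y) := by
  rw [integral_image_eq_integral_abs_det_fderiv_smul volume hD
    (f' := fun y => (ContinuousLinearMap.toSpanSingleton ℂ (deriv f y)).restrictScalars ℝ)
    (fun y hy => ((((hd y hy).hasDerivAt).hasFDerivAt).restrictScalars ℝ).hasFDerivWithinAt) hi g]
  refine integral_congr_ae (Eventually.of_forall fun y => ?_)
  show |_| • g (f y) = _
  rw [absdet, Complex.real_smul]

private theorem covi {f : ℂ → ℂ} {D : Set ℂ} (hD : MeasurableSet D) (hd : ∀ y ∈ D, DifferentiableAt ℂ f y) (hi : InjOn f D)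
    {g : ℂ → ℂ} (hg : IntegrableOn g (f '' D)) : IntegrableOn (fun y => ((‖deriv f y‖ ^ 2 : ℝ) : ℂ) * g (f y)) D := by
  have h1 := (integrableOn_image_iff_integrableOn_abs_det_fderiv_smul volume hD
    (f' := fun y => (ContinuousLinearMap.toSpanSingleton ℂ (deriv f y)).restrictScalars ℝ)
    (fun y hy => ((((hd y hy).hasDerivAt).hasFDerivAt).restrictScalars ℝ).hasFDerivWithinAt) hi g).1 hg
  refine h1.congr (Eventually.of_forall fun y => ?_)
  show |_| • g (f y) = _
  rw [absdet, Complex.real_smul]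

private theorem inv_int (w : ℂ) (s : ℝ) : IntegrableOn (fun u : ℂ => ‖w - u‖⁻¹) (ball w s) := by
  by_cases hs : 0 < s
  swap
  · rw [ball_eq_empty.2 (not_lt.1 hs)]
    exact integrableOn_empty
  have h1 : ∀ y ∈ Ioi (0 : ℝ), y * (if y < s then y⁻¹ else 0) = (Iio s).indicator (fun _ => (1 : ℝ)) y := by
    intro y hy
    have hy0 : 0 < y := hy
    by_cases h : y < s
    · rw [if_pos h, indicator_of_mem (show y ∈ Iio s from h)]
      field_simp
    · rw [if_neg h, indicator_of_notMem (show y ∉ Iio s from h), mul_zero]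
  have hI : IntegrableOn (fun y : ℝ => y * (if y < s then y⁻¹ else 0)) (Ioi 0) := by
    refine IntegrableOn.congr_fun ?_ (fun y hy => (h1 y hy).symm) measurableSet_Ioi
    rw [IntegrableOn, integrable_indicator_iff measurableSet_Iio, IntegrableOn, Measure.restrict_restrict measurableSet_Iio]
    have : Iio s ∩ Ioi 0 = Ioo 0 s := by
      ext y
      simp [and_comm]
    rw [this]
    exact integrable_const _
  have hint : Integrable (fun u : ℂ => if ‖u‖ < s then ‖u‖⁻¹ else 0) := by
    have := (integrable_fun_norm_addHaar (E := ℂ) (F := ℝ) volume (f := fun y => if y < s then y⁻¹ else 0)).2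
      (by rw [Complex.finrank_real_complex]; simpa using hI)
    exact this
  have h2 : Integrable (fun u : ℂ => if ‖w - u‖ < s then ‖w - u‖⁻¹ else 0) := hint.comp_sub_left w
  refine (h2.integrableOn (s := ball w s)).congr_fun (fun u hu => ?_) measurableSet_ball
  have hu' : ‖w - u‖ < s := by
    rw [mem_ball, dist_comm, dist_eq_norm] at hu
    exact hu
  show (if ‖w - u‖ < s then ‖w - u‖⁻¹ else 0) = ‖w - u‖⁻¹
  rw [if_pos hu']

/-- the Cauchy kernel is integrable against bounded functions on bounded sets -/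
theorem ck_int {μ : ℂ → ℂ} (hm : Measurable μ) {C : ℝ} (hb : ∀ z, ‖μ z‖ ≤ C) {D : Set ℂ} (hD : Bornology.IsBounded D) (w : ℂ) :
    IntegrableOn (fun u => μ u / (w - u)) D := by
  obtain ⟨s, hs⟩ := (isBounded_iff_subset_ball w).1 hD
  refine IntegrableOn.mono_set ?_ hs
  refine Integrable.mono' ((inv_int w s).const_mul C) ?_ ?_
  · exact (hm.div (measurable_const.sub measurable_id)).aestronglyMeasurable
  · refine Eventually.of_forall fun u => ?_
    rw [norm_div, div_eq_mul_inv]
    exact mul_le_mul_of_nonneg_right (hb u) (inv_nonneg.2 (norm_nonneg _))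

/-- `V - Ct (μ 1_O)` is holomorphic on `O` -/
theorem sub_ct {V μ : ℂ → ℂ} (hm : Measurable μ) {C : ℝ} (hb : ∀ z, ‖μ z‖ ≤ C) (hV : Continuous V)
    (hri : ∀ z w : ℂ, z.re ≤ w.re → z.im ≤ w.im → RI V z w = 2 * Complex.I * ∫ u in Rt z w, μ u)
    {O : Set ℂ} (hO : IsOpen O) (hOb : Bornology.IsBounded O) :
    DifferentiableOn ℂ (fun z => V z - Ct (O.indicator μ) z) O := by
  have hC : 0 ≤ C := (norm_nonneg _).trans (hb 0)
  obtain ⟨R, hR⟩ := hOb.subset_ball (0 : ℂ)
  have hm' : Measurable (O.indicator μ) := hm.indicator hO.measurableSet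
  have hb' : ∀ z, ‖O.indicator μ z‖ ≤ C := by
    intro z
    refine (norm_indicator_le_norm_self _ _).trans (hb z)
  have h0 : ∀ u, u ∉ ball (0 : ℂ) R → O.indicator μ u = 0 := fun u hu => indicator_of_notMem (fun h => hu (hR h)) _
  have hc := ct_cont hm' hb' h0
  intro z hz
  obtain ⟨s, hs, hsO⟩ := Metric.isOpen_iff.1 hO z hz
  have h1 : DifferentiableOn ℂ (fun z => V z - Ct (O.indicator μ) z) (ball z s) := by
    refine mor (hV.sub hc).continuousOn fun a b h1 h2 h3 => ?_
    have h4 : (fun z => V z - Ct (O.indicator μ) z) = fun z => V z + (-1) * Ct (O.indicator μ) z := by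
      funext z
      ring
    rw [h4, ri_add (Y := fun z => (-1) * Ct (O.indicator μ) z) h1 h2 hV.continuousOn (continuous_const.mul hc).continuousOn, ri_smul,
      hri a b h1 h2, ct_ri hm' hb' h0 h1 h2]
    have hRm : MeasurableSet (Rt a b) := by
      unfold Rt
      exact (measurableSet_le measurable_const Complex.measurable_re).inter
        ((measurableSet_le Complex.measurable_re measurable_const).inter
        ((measurableSet_le measurable_const Complex.measurable_im).inter
        (measurableSet_le Complex.measurable_im measurable_const)))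
    have h5 : ∫ u in Rt a b, O.indicator μ u = ∫ u in Rt a b, μ u :=
      setIntegral_congr_fun hRm fun u hu => indicator_of_mem (hsO (h3 hu)) _
    rw [h5]
    ring
  exact ((h1 z (mem_ball_self hs)).differentiableAt (isOpen_ball.mem_nhds (mem_ball_self hs))).differentiableWithinAt

private theorem inv_loc {f V μ : ℂ → ℂ} {U : Set ℂ} (hU : IsOpen U) (hf : DifferentiableOn ℂ f U)
    (hm : Measurable μ) {C : ℝ} (hb : ∀ z, ‖μ z‖ ≤ C) (hV : Continuous V)
    (hri : ∀ z w : ℂ, z.re ≤ w.re → z.im ≤ w.im → RI V z w = 2 * Complex.I * ∫ u in Rt z w, μ u)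
    (hinv : ∀ᵐ z : ℂ, z ∈ U → μ (f z) * (starRingEnd ℂ) (deriv f z) = μ z * deriv f z) {z0 : ℂ} (hz0 : z0 ∈ U)
    (h0 : deriv f z0 ≠ 0) : DifferentiableAt ℂ (fun z => V (f z) - deriv f z * V z) z0 := by
  obtain ⟨r, c, hr, hc, hrU, hl⟩ := loc_lo hU hf hz0 h0
  have hf4 : DifferentiableOn ℂ f (ball z0 (4 * r)) := hf.mono hrU
  have hr4 : ball z0 r ⊆ ball z0 (4 * r) := ball_subset_ball (by linarith)
  obtain ⟨D, hD⟩ : ∃ D, D = ball z0 r := ⟨_, rfl⟩
  have hDm : MeasurableSet D := hD ▸ measurableSet_ball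
  have hdD : ∀ y ∈ D, DifferentiableAt ℂ f y := fun y hy =>
    hf4.differentiableAt (isOpen_ball.mem_nhds (hr4 (hD ▸ hy)))
  have hne : ∀ y ∈ D, ∀ z ∈ D, z ≠ y → f z ≠ f y := fun y hy z hz h =>
    (kh_diff hc hf4 hl (hr4 (hD ▸ hy))).2 z (hr4 (hD ▸ hz)) h
  have hi : InjOn f D := by
    intro y hy z hz h
    by_contra h1
    exact hne z hz y hy h1 h
  have hfo : IsOpen (f '' D) := by
    rw [isOpen_iff_mem_nhds]
    rintro _ ⟨y, hy, rfl⟩
    have h1 : HasStrictDerivAt f (deriv f y) y := (hf4.analyticAt (isOpen_ball.mem_nhds (hr4 (hD ▸ hy)))).hasStrictDerivAt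
    have h2 : deriv f y ≠ 0 := by
      intro h3
      have h4 : HasDerivAt f 0 y := h3 ▸ (hdD y hy).hasDerivAt
      have h5 := (hasDerivAt_iff_tendsto_slope.1 h4).norm
      rw [norm_zero] at h5
      have h6 : ∀ᶠ z in 𝓝[≠] y, c ≤ ‖slope f y z‖ := by
        filter_upwards [self_mem_nhdsWithin, mem_nhdsWithin_of_mem_nhds (isOpen_ball.mem_nhds (hr4 (hD ▸ hy)))] with z hz1 hz2
        have hz1' : z ≠ y := hz1
        have h5 : 0 < ‖z - y‖ := norm_pos_iff.2 (sub_ne_zero.2 hz1')
        rw [slope_def_field, norm_div, le_div_iff₀ h5]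
        exact hl y (hr4 (hD ▸ hy)) z hz2
      have h7 := ge_of_tendsto h5 h6
      linarith
    rw [← h1.map_nhds_eq h2]
    exact image_mem_map ((hD ▸ isOpen_ball : IsOpen D).mem_nhds hy)
  have hfb : Bornology.IsBounded (f '' D) := by
    have h1 : IsCompact (f '' closedBall z0 r) :=
      (isCompact_closedBall z0 r).image_of_continuousOn (hf4.continuousOn.mono (closedBall_subset_ball (by linarith)))
    exact h1.isBounded.subset (image_mono (hD ▸ ball_subset_closedBall))
  have hDb : Bornology.IsBounded D := hD ▸ isBounded_ball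
  have hz0D : z0 ∈ D := hD ▸ mem_ball_self hr
  have hDo : IsOpen D := hD ▸ isOpen_ball
  -- the three parts
  have p1 : DifferentiableAt ℂ (fun z => V (f z) - Ct ((f '' D).indicator μ) (f z)) z0 := by
    have h1 := (sub_ct hm hb hV hri hfo hfb).differentiableAt (hfo.mem_nhds (mem_image_of_mem f hz0D))
    exact DifferentiableAt.comp z0 h1 (hdD z0 hz0D)
  have p2 : DifferentiableAt ℂ (fun z => deriv f z * (V z - Ct (D.indicator μ) z)) z0 := by
    have h1 := (sub_ct hm hb hV hri hDo hDb).differentiableAt (hDo.mem_nhds hz0D)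
    exact ((hf4.deriv isOpen_ball).differentiableAt (isOpen_ball.mem_nhds (hr4 (hD ▸ hz0D)))).mul h1
  have p3 : ∀ z ∈ D, Ct ((f '' D).indicator μ) (f z) - deriv f z * Ct (D.indicator μ) z =
      (1 / (Real.pi : ℂ)) * ∫ y in D, μ y * Kh f y z := by
    intro z hz
    have e1 : ∫ u, (f '' D).indicator μ u / (f z - u) = ∫ u in f '' D, μ u / (f z - u) := by
      rw [← integral_indicator hfo.measurableSet]
      refine integral_congr_ae (Eventually.of_forall fun u => ?_)
      show (f '' D).indicator μ u / (f z - u) = (f '' D).indicator (fun u => μ u / (f z - u)) u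
      by_cases hu : u ∈ f '' D
      · rw [indicator_of_mem hu, indicator_of_mem hu]
      · rw [indicator_of_notMem hu, indicator_of_notMem hu, zero_div]
    have e2 : ∫ u, D.indicator μ u / (z - u) = ∫ u in D, μ u / (z - u) := by
      rw [← integral_indicator hDm]
      refine integral_congr_ae (Eventually.of_forall fun u => ?_)
      show D.indicator μ u / (z - u) = D.indicator (fun u => μ u / (z - u)) u
      by_cases hu : u ∈ D
      · rw [indicator_of_mem hu, indicator_of_mem hu]
      · rw [indicator_of_notMem hu, indicator_of_notMem hu, zero_div]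
    have i1 := covi hDm hdD hi (ck_int hm hb hfb (f z))
    have i2 := ck_int hm hb hDb z
    unfold Ct
    rw [e1, e2, cov hDm hdD hi]
    have e3 : (1 / (Real.pi : ℂ)) * (∫ y in D, ((‖deriv f y‖ ^ 2 : ℝ) : ℂ) * (μ (f y) / (f z - f y))) -
        deriv f z * ((1 / (Real.pi : ℂ)) * ∫ u in D, μ u / (z - u)) = (1 / (Real.pi : ℂ)) *
        ((∫ y in D, ((‖deriv f y‖ ^ 2 : ℝ) : ℂ) * (μ (f y) / (f z - f y))) - ∫ u in D, deriv f z * (μ u / (z - u))) := by
      rw [integral_const_mul]
      ring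
    rw [e3, ← integral_sub i1 (i2.const_mul _)]
    congr 1
    refine integral_congr_ae ?_
    have h2 : ∀ᵐ y ∂(volume.restrict D), y ≠ z := by
      refine ae_restrict_of_ae ?_
      rw [ae_iff]
      simp
    filter_upwards [h2, ae_restrict_mem hDm, ae_restrict_of_ae hinv] with y hyz hy hy2
    have hyU : y ∈ U := hrU (hr4 (hD ▸ hy))
    have h3 := hy2 hyU
    have h4 : f z - f y ≠ 0 := sub_ne_zero.2 (hne y hy z hz hyz.symm)
    rw [kh_eq hyz.symm (hne y hy z hz hyz.symm)]
    have h5 : ((‖deriv f y‖ ^ 2 : ℝ) : ℂ) = deriv f y * (starRingEnd ℂ) (deriv f y) := by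
      rw [Complex.mul_conj, Complex.normSq_eq_norm_sq]
    have h6 : ((‖deriv f y‖ ^ 2 : ℝ) : ℂ) * μ (f y) = μ y * deriv f y ^ 2 := by
      rw [h5]
      linear_combination deriv f y * h3
    have h7 : ((‖deriv f y‖ ^ 2 : ℝ) : ℂ) * (μ (f y) / (f z - f y)) = μ y * deriv f y ^ 2 / (f z - f y) := by
      rw [← h6]
      ring
    rw [h7]
    ring
  have h4 : (fun z => V (f z) - deriv f z * V z) =ᶠ[𝓝 z0] fun z =>
      (V (f z) - Ct ((f '' D).indicator μ) (f z)) - deriv f z * (V z - Ct (D.indicator μ) z) +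
        (1 / (Real.pi : ℂ)) * ∫ y in D, μ y * Kh f y z := by
    filter_upwards [hDo.mem_nhds hz0D] with z hz
    rw [← p3 z hz]
    ring
  refine DifferentiableAt.congr_of_eventuallyEq ?_ h4
  refine (p1.sub p2).add ?_
  rw [hD]
  exact (kh_int hr hc hf4 hl hm hb).const_mul _

/-- LEMMA INV -/
theorem inv_hol {f V μ : ℂ → ℂ} {U : Set ℂ} (hU : IsOpen U) (hf : DifferentiableOn ℂ f U)
    (hm : Measurable μ) {C : ℝ} (hb : ∀ z, ‖μ z‖ ≤ C) (hV : Continuous V)
    (hri : ∀ z w : ℂ, z.re ≤ w.re → z.im ≤ w.im → RI V z w = 2 * Complex.I * ∫ u in Rt z w, μ u)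
    (hinv : ∀ᵐ z : ℂ, z ∈ U → μ (f z) * (starRingEnd ℂ) (deriv f z) = μ z * deriv f z) :
    DifferentiableOn ℂ (fun z => V (f z) - deriv f z * V z) U := by
  intro z0 hz0
  refine DifferentiableAt.differentiableWithinAt ?_
  by_cases h0 : deriv f z0 = 0
  swap
  · exact inv_loc hU hf hm hb hV hri hinv hz0 h0
  have han : AnalyticAt ℂ (deriv f) z0 := (hf.deriv hU).analyticAt (hU.mem_nhds hz0)
  have hUn : ∀ᶠ z in 𝓝 z0, z ∈ U := hU.mem_nhds hz0
  rcases han.eventually_eq_zero_or_eventually_ne_zero with h1 | h1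
  · -- locally constant
    obtain ⟨s, hs, hsb⟩ := Metric.eventually_nhds_iff_ball.1 (h1.and hUn)
    have h2 : ∀ z ∈ ball z0 s, f z = f z0 := by
      intro z hz
      have h3 : DifferentiableOn ℂ f (ball z0 s) := hf.mono fun z hz => (hsb z hz).2
      exact (convex_ball z0 s).is_const_of_fderivWithin_eq_zero (𝕜 := ℂ) h3 (fun w hw => by
        rw [fderivWithin_of_isOpen isOpen_ball hw]
        ext
        simp [(hsb w hw).1]) hz (mem_ball_self hs)
    have h3 : (fun z => V (f z) - deriv f z * V z) =ᶠ[𝓝 z0] fun _ => V (f z0) := by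
      filter_upwards [ball_mem_nhds z0 hs] with z hz
      rw [h2 z hz, (hsb z hz).1, zero_mul, sub_zero]
    exact (differentiableAt_const _).congr_of_eventuallyEq h3
  · -- an isolated zero
    have hcont : ContinuousAt (fun z => V (f z) - deriv f z * V z) z0 := by
      refine ContinuousAt.sub (hV.continuousAt.comp (hf.differentiableAt (hU.mem_nhds hz0)).continuousAt) ?_
      exact han.continuousAt.mul hV.continuousAt
    refine (Complex.analyticAt_of_differentiable_on_punctured_nhds_of_continuousAt ?_ hcont).differentiableAt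
    filter_upwards [h1, mem_nhdsWithin_of_mem_nhds (hU.mem_nhds hz0)] with z hz hzU
    exact inv_loc hU hf hm hb hV hri hinv hzU hz

end Pool.Agent.H66.IV
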