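import Pool.Agent.H66.IV.Inv
import Pool.Agent.H1.PU.Ker

/-!
# LOC (MP_8f2e1c), Julia set = sphere: the potential of a bounded function

`Vp ν x = -(1/π) ∫ ν w * KA x w` (`KA x w = x (x - 1) / (w (w - 1) (w - x))`, integrable in `w`). `pot`: it is continuous and `RI (Vp ν) = 2 i ∫ ν` on all rectangles.
PROOF. On `ball 0 R`: `Vp ν = Ct (ν 1_B) + H`, `B = ball 0 (2 R)`, `H` holomorphic: `KA x w = 1 / (w - x) + (x - 1) / w - x / (w - 1)` on `B`; off `B` differentiate under the integral sign.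
-/

set_option autoImplicit false

open Filter Topology Metric Set MeasureTheory

namespace Pool.Agent.H66.IV

open Pool.Agent.H66.IL (Ct Rt RI ct_ri ct_cont ri_add ri_smul ri_hol mor)
open Pool.Agent.H1.PU (KA ka_int)

/-- the potential -/
noncomputable def Vp (ν : ℂ → ℂ) (x : ℂ) : ℂ := -(1 / (Real.pi : ℂ)) * ∫ w, ν w * KA x w

theorem ka_pf {x w : ℂ} (h0 : w ≠ 0) (h1 : w ≠ 1) (hx : w ≠ x) : KA x w = -(1 / (x - w)) + ((x - 1) * (1 / w) - x * (1 / (w - 1))) := by
  have h1' : w - 1 ≠ 0 := sub_ne_zero.2 h1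
  have h2 : w - x ≠ 0 := sub_ne_zero.2 hx
  have h3 : x - w ≠ 0 := sub_ne_zero.2 hx.symm
  unfold KA
  field_simp
  ring

/-- the far part -/
private theorem far {ν : ℂ → ℂ} (hm : Measurable ν) {C : ℝ} (hb : ∀ z, ‖ν z‖ ≤ C) {R : ℝ} (hR : 2 ≤ R) :
    DifferentiableOn ℂ (fun x => ∫ w in (ball (0 : ℂ) (2 * R))ᶜ, ν w * KA x w) (ball 0 R) := by
  have hC : 0 ≤ C := (norm_nonneg _).trans (hb 0)
  have hR0 : 0 < R := by linarith
  -- the bounds
  have hw4 : ∀ w ∈ (ball (0 : ℂ) (2 * R))ᶜ, 2 * R ≤ ‖w‖ := fun w hw => by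
    rw [mem_compl_iff, mem_ball_zero_iff, not_lt] at hw
    exact hw
  have hlo : ∀ w ∈ (ball (0 : ℂ) (2 * R))ᶜ, ∀ x ∈ ball (0 : ℂ) R, ‖w‖ / 2 ≤ ‖w - x‖ := by
    intro w hw x hx
    have h1 := hw4 w hw
    rw [mem_ball_zero_iff] at hx
    have h2 := norm_sub_norm_le w x
    linarith
  have h1R : (1 : ℂ) ∈ ball (0 : ℂ) R := by
    rw [mem_ball_zero_iff, norm_one]
    linarith
  have h2R : ∀ w ∈ (ball (0 : ℂ) (2 * R))ᶜ, ‖w‖ ^ 3 ≤ 8 * (‖w‖ * ‖w - 1‖ * ‖w - (-1)‖) ∧ ‖w‖ * ‖w - 1‖ * ‖w - (-1)‖ ≤ 8 * ‖w‖ ^ 3 := by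
    intro w hw
    have h0 := hw4 w hw
    have a1 := hlo w hw 1 h1R
    have a2 := hlo w hw (-1) (by rw [mem_ball_zero_iff, norm_neg, norm_one]; linarith)
    have hw0 : 0 < ‖w‖ := by linarith
    have b1 : ‖w - 1‖ ≤ 2 * ‖w‖ := by
      have := norm_sub_le w 1
      rw [norm_one] at this
      linarith
    have b2 : ‖w - (-1)‖ ≤ 2 * ‖w‖ := by
      have := norm_sub_le w (-1)
      rw [norm_neg, norm_one] at this
      linarith
    constructor
    · have : (‖w‖ / 2) * (‖w‖ / 2) ≤ ‖w - 1‖ * ‖w - (-1)‖ := mul_le_mul a1 a2 (by positivity) (norm_nonneg _)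
      nlinarith
    · have : ‖w - 1‖ * ‖w - (-1)‖ ≤ (2 * ‖w‖) * (2 * ‖w‖) := mul_le_mul b1 b2 (norm_nonneg _) (by positivity)
      have h3 := mul_le_mul_of_nonneg_left this hw0.le
      nlinarith [pow_pos hw0 3]
  have hKi : Integrable (KA (-1)) := ka_int (-1)
  have hK1 : ∀ w ∈ (ball (0 : ℂ) (2 * R))ᶜ, (‖w‖ ^ 3)⁻¹ ≤ 4 * ‖KA (-1) w‖ := by
    intro w hw
    have h0 := hw4 w hw
    have hw0 : 0 < ‖w‖ := by linarith
    obtain ⟨h1, h2⟩ := h2R w hw
    have h3 : ‖KA (-1) w‖ = 2 / (‖w‖ * ‖w - 1‖ * ‖w - (-1)‖) := by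
      unfold KA
      rw [norm_div, norm_mul, norm_mul, norm_mul]
      congr 1
      · norm_num
    have hp : 0 < ‖w‖ * ‖w - 1‖ * ‖w - (-1)‖ := by
      by_contra hcon
      have := pow_pos hw0 3
      linarith
    rw [h3, ← mul_div_assoc, inv_le_iff_one_le_mul₀ (by positivity), div_mul_eq_mul_div, le_div_iff₀ hp]
    linarith
  intro x0 hx0
  refine DifferentiableAt.differentiableWithinAt ?_
  -- derivative of the kernel in `x`
  obtain ⟨D, hD⟩ : ∃ D : ℂ → ℂ → ℂ, D = fun x w => ν w * (((2 * x - 1) * (w - x) + x * (x - 1)) / (w * (w - 1) * (w - x) ^ 2)) := ⟨_, rfl⟩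
  have hder : ∀ w ∈ (ball (0 : ℂ) (2 * R))ᶜ, ∀ x ∈ ball (0 : ℂ) R, HasDerivAt (fun x => ν w * KA x w) (D x w) x := by
    intro w hw x hx
    have h0 := hw4 w hw
    have hw0 : w ≠ 0 := norm_pos_iff.1 (by linarith)
    have hw1 : w - 1 ≠ 0 := norm_pos_iff.1 (by have := hlo w hw 1 h1R; linarith)
    have hwx : w - x ≠ 0 := norm_pos_iff.1 (by have := hlo w hw x hx; linarith)
    have h1 : HasDerivAt (fun x : ℂ => x * (x - 1)) (2 * x - 1) x := by
      have := (hasDerivAt_id x).mul ((hasDerivAt_id x).sub_const 1)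
      refine this.congr_deriv ?_
      simp only [id]
      ring
    have h2 : HasDerivAt (fun x : ℂ => w * (w - 1) * (w - x)) (w * (w - 1) * (-1)) x := by
      have := ((hasDerivAt_id x).const_sub w).const_mul (w * (w - 1))
      exact this
    have h3 := (h1.div h2 (mul_ne_zero (mul_ne_zero hw0 hw1) hwx)).const_mul (ν w)
    refine (h3.congr_deriv ?_)
    rw [hD]
    simp only
    congr 1
    rw [div_eq_div_iff (pow_ne_zero 2 (mul_ne_zero (mul_ne_zero hw0 hw1) hwx))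
      (mul_ne_zero (mul_ne_zero hw0 hw1) (pow_ne_zero 2 hwx))]
    ring
  have hBm : MeasurableSet ((ball (0 : ℂ) (2 * R))ᶜ) := measurableSet_ball.compl
  have key := hasDerivAt_integral_of_dominated_loc_of_deriv_le (μ := volume.restrict ((ball (0 : ℂ) (2 * R))ᶜ)) (𝕜 := ℂ)
    (F := fun x w => ν w * KA x w) (F' := D) (x₀ := x0) (s := ball 0 R)
    (bound := fun w => C * (40 * R ^ 2) * (4 * ‖KA (-1) w‖)) (isOpen_ball.mem_nhds hx0) ?_ ?_ ?_ ?_ ?_ ?_
  · exact key.2.differentiableAt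
  · filter_upwards with x
    exact (hm.aestronglyMeasurable.mul (ka_int x).aestronglyMeasurable.restrict).congr (Eventually.of_forall fun _ => rfl)
  · refine ((ka_int x0).integrableOn.bdd_mul (c := C) hm.aestronglyMeasurable.restrict ?_)
    exact Eventually.of_forall hb
  · have h1 : Measurable (D x0) := by
      rw [hD]
      fun_prop
    exact h1.aestronglyMeasurable
  · filter_upwards [ae_restrict_mem hBm] with w hw x hx
    have h0 := hw4 w hw
    have hw0 : 0 < ‖w‖ := by linarith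
    have a1 := hlo w hw 1 h1R
    have a2 := hlo w hw x hx
    rw [mem_ball_zero_iff] at hx
    have b2 : ‖w - x‖ ≤ 2 * ‖w‖ := by
      have := norm_sub_le w x
      linarith
    have hn : ‖(2 * x - 1) * (w - x) + x * (x - 1)‖ ≤ 5 * R * ‖w‖ + 2 * R ^ 2 := by
      have c1 : ‖(2 * x - 1 : ℂ)‖ ≤ 5 / 2 * R := by
        have := norm_sub_le (2 * x) 1
        rw [norm_mul, norm_one, Complex.norm_ofNat] at this
        linarith
      have c2 : ‖(x - 1 : ℂ)‖ ≤ 2 * R := by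
        have := norm_sub_le x 1
        rw [norm_one] at this
        linarith
      refine (norm_add_le _ _).trans ?_
      rw [norm_mul, norm_mul]
      have d1 : ‖(2 * x - 1 : ℂ)‖ * ‖w - x‖ ≤ (5 / 2 * R) * (2 * ‖w‖) := mul_le_mul c1 b2 (norm_nonneg _) (by positivity)
      have d2 : ‖x‖ * ‖(x - 1 : ℂ)‖ ≤ R * (2 * R) := mul_le_mul hx.le c2 (norm_nonneg _) hR0.le
      nlinarith
    have hden : ‖w‖ ^ 4 / 8 ≤ ‖w * (w - 1) * (w - x) ^ 2‖ := by
      rw [norm_mul, norm_mul, norm_pow]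
      have e1 : (‖w‖ / 2) ^ 2 ≤ ‖w - x‖ ^ 2 := pow_le_pow_left₀ (by positivity) a2 2
      have e2 : ‖w‖ * (‖w‖ / 2) * (‖w‖ / 2) ^ 2 ≤ ‖w‖ * ‖w - 1‖ * ‖w - x‖ ^ 2 :=
        mul_le_mul (mul_le_mul_of_nonneg_left a1 hw0.le) e1 (by positivity) (by positivity)
      calc ‖w‖ ^ 4 / 8 = ‖w‖ * (‖w‖ / 2) * (‖w‖ / 2) ^ 2 := by ring
        _ ≤ _ := e2
    have hnum : ‖(2 * x - 1) * (w - x) + x * (x - 1)‖ ≤ 5 * R ^ 2 * ‖w‖ := by
      refine hn.trans ?_
      nlinarith [mul_pos hR0 hw0]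
    rw [hD]
    simp only
    rw [norm_mul, norm_div]
    have h5 : ‖(2 * x - 1) * (w - x) + x * (x - 1)‖ / ‖w * (w - 1) * (w - x) ^ 2‖ ≤ 5 * R ^ 2 * ‖w‖ / (‖w‖ ^ 4 / 8) :=
      div_le_div₀ (by positivity) hnum (by positivity) hden
    have h6 : 5 * R ^ 2 * ‖w‖ / (‖w‖ ^ 4 / 8) = 40 * R ^ 2 * (‖w‖ ^ 3)⁻¹ := by
      field_simp
      ring
    rw [h6] at h5
    have h7 := hK1 w hw
    calc ‖ν w‖ * (‖(2 * x - 1) * (w - x) + x * (x - 1)‖ / ‖w * (w - 1) * (w - x) ^ 2‖)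
        ≤ C * (40 * R ^ 2 * (‖w‖ ^ 3)⁻¹) := mul_le_mul (hb w) h5 (by positivity) hC
      _ ≤ C * (40 * R ^ 2 * (4 * ‖KA (-1) w‖)) := by gcongr
      _ = _ := by ring
  · exact (hKi.norm.const_mul _).const_mul _ |>.integrableOn
  · filter_upwards [ae_restrict_mem hBm] with w hw x hx
    exact hder w hw x hx

/-- the local form -/
theorem vp_loc {ν : ℂ → ℂ} (hm : Measurable ν) {C : ℝ} (hb : ∀ z, ‖ν z‖ ≤ C) {R : ℝ} (hR : 2 ≤ R) :
    DifferentiableOn ℂ (fun x => Vp ν x - Ct ((ball (0 : ℂ) (2 * R)).indicator ν) x) (ball 0 R) := by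
  obtain ⟨B, hB⟩ : ∃ B, B = ball (0 : ℂ) (2 * R) := ⟨_, rfl⟩
  have hBm : MeasurableSet B := hB ▸ measurableSet_ball
  have hBb : Bornology.IsBounded B := hB ▸ isBounded_ball
  have hi : ∀ x : ℂ, Integrable (fun w => ν w * KA x w) := fun x =>
    (ka_int x).bdd_mul (c := C) hm.aestronglyMeasurable (Eventually.of_forall hb)
  have hd : DifferentiableOn ℂ (fun x : ℂ => -(1 / (Real.pi : ℂ)) * ((x - 1) * (-∫ w in B, ν w / (0 - w)) - x * (-∫ w in B, ν w / (1 - w)) +
      ∫ w in Bᶜ, ν w * KA x w)) (ball 0 R) := by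
    refine DifferentiableOn.const_mul (DifferentiableOn.add ?_ (by rw [hB]; exact far hm hb hR)) _
    fun_prop
  refine hd.congr fun x _ => ?_
  have e1 : ∫ w, ν w * KA x w = (∫ w in B, ν w * KA x w) + ∫ w in Bᶜ, ν w * KA x w := (integral_add_compl hBm (hi x)).symm
  have e2 : ∫ w in B, ν w * KA x w = ∫ w in B, (-(ν w / (x - w)) + ((x - 1) * (-(ν w / (0 - w))) - x * (-(ν w / (1 - w))))) := by
    refine integral_congr_ae (ae_restrict_of_ae ?_)
    have h3 : ∀ᵐ w : ℂ, w ∉ ({0, 1, x} : Set ℂ) := by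
      rw [ae_iff]
      simp only [not_not]
      exact (Set.toFinite ({0, 1, x} : Set ℂ)).measure_zero volume
    filter_upwards [h3] with w hw
    simp only [mem_insert_iff, mem_singleton_iff, not_or] at hw
    rw [ka_pf hw.1 hw.2.1 hw.2.2]
    have : (1 : ℂ) - w = -(w - 1) := by ring
    rw [this, zero_sub, div_neg, div_neg]
    ring
  have e3 : ∫ w, B.indicator ν w / (x - w) = ∫ w in B, ν w / (x - w) := by
    rw [← integral_indicator hBm]
    refine integral_congr_ae (Eventually.of_forall fun u => ?_)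
    show B.indicator ν u / (x - u) = B.indicator (fun u => ν u / (x - u)) u
    by_cases hu : u ∈ B
    · rw [indicator_of_mem hu, indicator_of_mem hu]
    · rw [indicator_of_notMem hu, indicator_of_notMem hu, zero_div]
  have i1 := ck_int hm hb hBb x
  have i2 := ck_int hm hb hBb 0
  have i3 := ck_int hm hb hBb 1
  have e4 : ∫ w in B, (-(ν w / (x - w)) + ((x - 1) * (-(ν w / (0 - w))) - x * (-(ν w / (1 - w))))) =
      -(∫ w in B, ν w / (x - w)) + ((x - 1) * (-∫ w in B, ν w / (0 - w)) - x * (-∫ w in B, ν w / (1 - w))) := by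
    have j2 : IntegrableOn (fun w => (x - 1) * (-(ν w / (0 - w)))) B := i2.neg.const_mul _
    have j3 : IntegrableOn (fun w => x * (-(ν w / (1 - w)))) B := i3.neg.const_mul _
    have j1 : IntegrableOn (fun w => -(ν w / (x - w))) B := i1.neg
    have j4 : IntegrableOn (fun w => (x - 1) * (-(ν w / (0 - w))) - x * (-(ν w / (1 - w)))) B := j2.sub j3
    rw [integral_add j1 j4, integral_sub j2 j3, integral_const_mul, integral_const_mul, integral_neg, integral_neg,
      integral_neg]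
  unfold Vp Ct
  rw [← hB, e3, e1, e2, e4]
  ring

theorem pot {ν : ℂ → ℂ} (hm : Measurable ν) {C : ℝ} (hb : ∀ z, ‖ν z‖ ≤ C) : Continuous (Vp ν) ∧
    ∀ z w : ℂ, z.re ≤ w.re → z.im ≤ w.im → RI (Vp ν) z w = 2 * Complex.I * ∫ u in Rt z w, ν u := by
  have hdat : ∀ R : ℝ, Measurable ((ball (0 : ℂ) (2 * R)).indicator ν) ∧ (∀ z, ‖(ball (0 : ℂ) (2 * R)).indicator ν z‖ ≤ C) ∧
      ∀ u, u ∉ ball (0 : ℂ) (2 * R) → (ball (0 : ℂ) (2 * R)).indicator ν u = 0 := fun R =>
    ⟨hm.indicator measurableSet_ball, fun z => (norm_indicator_le_norm_self _ _).trans (hb z),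
      fun u hu => indicator_of_notMem hu _⟩
  have hcont : Continuous (Vp ν) := by
    rw [continuous_iff_continuousAt]
    intro x
    obtain ⟨R, hR, hx⟩ : ∃ R : ℝ, 2 ≤ R ∧ x ∈ ball (0 : ℂ) R := ⟨‖x‖ + 2, by linarith [norm_nonneg x], by
      rw [mem_ball_zero_iff]
      linarith⟩
    have h1 := ((vp_loc hm hb hR).differentiableAt (isOpen_ball.mem_nhds hx)).continuousAt
    have h2 := (ct_cont (hdat R).1 (hdat R).2.1 (hdat R).2.2).continuousAt (x := x)
    have h3 := h1.add h2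
    refine h3.congr (Eventually.of_forall fun y => ?_)
    show Vp ν y - Ct _ y + Ct _ y = Vp ν y
    ring
  refine ⟨hcont, fun z w h1 h2 => ?_⟩
  obtain ⟨R, hR, hRt⟩ : ∃ R : ℝ, 2 ≤ R ∧ Rt z w ⊆ ball (0 : ℂ) R := by
    refine ⟨|z.re| + |w.re| + |z.im| + |w.im| + 2, ?_, fun u hu => ?_⟩
    · linarith [abs_nonneg z.re, abs_nonneg w.re, abs_nonneg z.im, abs_nonneg w.im]
    · have := abs_nonneg z.re
      obtain ⟨a1, a2, a3, a4⟩ := hu
      rw [mem_ball_zero_iff]
      refine (Complex.norm_le_abs_re_add_abs_im u).trans_lt ?_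
      have b1 : |u.re| ≤ |z.re| + |w.re| := by
        rw [abs_le]
        constructor
        · linarith [neg_abs_le z.re, abs_nonneg w.re]
        · linarith [le_abs_self w.re, abs_nonneg z.re]
      have b2 : |u.im| ≤ |z.im| + |w.im| := by
        rw [abs_le]
        constructor
        · linarith [neg_abs_le z.im, abs_nonneg w.im]
        · linarith [le_abs_self w.im, abs_nonneg z.im]
      linarith
  have hc := ct_cont (hdat R).1 (hdat R).2.1 (hdat R).2.2
  have h3 : Vp ν = fun x => (Vp ν x - Ct ((ball (0 : ℂ) (2 * R)).indicator ν) x) + Ct ((ball (0 : ℂ) (2 * R)).indicator ν) x := by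
    funext x
    ring
  have h4 := vp_loc hm hb hR
  have hRm : MeasurableSet (Rt z w) := by
    unfold Rt
    exact (measurableSet_le measurable_const Complex.measurable_re).inter
      ((measurableSet_le Complex.measurable_re measurable_const).inter
      ((measurableSet_le measurable_const Complex.measurable_im).inter
      (measurableSet_le Complex.measurable_im measurable_const)))
  rw [h3, ri_add h1 h2 ((h4.continuousOn).mono hRt) hc.continuousOn,
    ri_hol h1 h2 ((h4.continuousOn).mono hRt) countable_empty (fun u hu _ => h4.differentiableAt (isOpen_ball.mem_nhds (hRt hu))),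
    ct_ri (hdat R).1 (hdat R).2.1 (hdat R).2.2 h1 h2, zero_add]
  congr 1
  refine setIntegral_congr_fun hRm fun u hu => ?_
  exact indicator_of_mem (ball_subset_ball (by linarith) (hRt hu)) _

end Pool.Agent.H66.IV
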