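import Pool.Agent.H66.IV.Uni
import Pool.Agent.H66.IL.SMU

/-!
# LOC (MP_8f2e1c), Julia set = sphere: the fields with `E` in a given set

`smu_in`: as `smu` (H66/IL/SMU), with `E ⊆ A ∩ {ν ≠ 0}` for a measurable set `A` with `0 < volume {z ∈ A | ν z ≠ 0}`, if the potential of `ν` is a combination of the fields.
PROOF. `ν = ∑ c i μ i` almost everywhere on `ball 0 (R + 1)` (`mu_off` for the field `0`), so `μ i0 ≠ 0` on a subset of positive area for some `i0`.
-/

set_option autoImplicit false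

open Filter Topology Polynomial Metric Set MeasureTheory

namespace Pool.Agent.H66.IV

open Pool.Agent.H66.IL (Ct Rt RI ri_add ri_smul mor mu_all mu_off eg_fam tz sq_sp TT)
open Pool.Agent.H66.UP (TP)

private theorem rt_meas (z w : ℂ) : MeasurableSet (Rt z w) :=
  (measurableSet_le measurable_const Complex.measurable_re).inter
    ((measurableSet_le Complex.measurable_re measurable_const).inter
      ((measurableSet_le measurable_const Complex.measurable_im).inter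
        (measurableSet_le Complex.measurable_im measurable_const)))

private theorem ri_sum {n : ℕ} {X : Fin n → ℂ → ℂ} (hX : ∀ i, Continuous (X i)) (c : Fin n → ℂ) {z w : ℂ} (h1 : z.re ≤ w.re) (h2 : z.im ≤ w.im)
    (s : Finset (Fin n)) : RI (fun u => ∑ i ∈ s, c i * X i u) z w = ∑ i ∈ s, c i * RI (X i) z w := by
  classical
  induction s using Finset.induction_on with
  | empty =>
    have h3 := ri_smul (X := fun _ : ℂ => (0 : ℂ)) 0 z w
    simp only [zero_mul] at h3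
    simp only [Finset.sum_empty]
    exact h3
  | insert i s hi ih =>
    have h3 : (fun u => ∑ j ∈ insert i s, c j * X j u) = fun u => c i * X i u + ∑ j ∈ s, c j * X j u := by
      funext u
      rw [Finset.sum_insert hi]
    rw [h3, Finset.sum_insert hi, ← ih, ← ri_smul]
    exact ri_add h1 h2 (continuous_const.mul (hX i)).continuousOn
      (continuous_finsetSum _ fun j _ => continuous_const.mul (hX j)).continuousOn

private theorem int_on {μ : ℂ → ℂ} (hm : Measurable μ) {C : ℝ} (hb : ∀ z, ‖μ z‖ ≤ C) {R : ℝ} {z w : ℂ} (h : Rt z w ⊆ ball 0 R) :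
    IntegrableOn μ (Rt z w) := by
  have h1 : volume (Rt z w) < ⊤ := (measure_mono h).trans_lt measure_ball_lt_top
  exact Measure.integrableOn_of_bounded h1.ne hm.aestronglyMeasurable (Eventually.of_forall hb)

private theorem smi_min {n : ℕ} (i0 : Fin n) (η : Fin n → ℝ) (h : ∀ i, 0 < η i) : ∃ ε : ℝ, 0 < ε ∧ ∀ i, ε ≤ η i := by
  obtain ⟨j, -, hj⟩ := (Finset.univ : Finset (Fin n)).exists_min_image η ⟨i0, Finset.mem_univ _⟩
  exact ⟨η j, h j, fun i => hj i (Finset.mem_univ _)⟩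

theorem smu_in {n : ℕ} {X : Fin n → ℂ → ℂ} (hX : ∀ i, Continuous (X i)) (hT : ∀ i, TP univ (X i)) (q : ℂ)
    {ν : ℂ → ℂ} (hm : Measurable ν) {C0 : ℝ} (hb : ∀ z, ‖ν z‖ ≤ C0) {c : Fin n → ℂ} (hc : ∀ z, Vp ν z = ∑ i, c i * X i z)
    {A : Set ℂ} (hA : MeasurableSet A) (hAp : 0 < volume {z ∈ A | ν z ≠ 0}) :
    ∃ (C : ℝ) (μ : Fin n → ℂ → ℂ) (E : Set ℂ) (i0 : Fin n) (b0 : ℝ), 1 ≤ C ∧ (∀ i z, ‖μ i z‖ ≤ C) ∧ 0 < b0 ∧ IsCompact E ∧ q ∉ E ∧
      0 < volume E ∧ (∀ z ∈ E, b0 ≤ ‖μ i0 z‖) ∧ TT E X μ ∧ E ⊆ A := by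
  have hνm : MeasurableSet {z | ν z ≠ 0} := (hm (measurableSet_singleton 0)).compl
  obtain ⟨R, hR⟩ : ∃ R : ℕ, 0 < volume ({z ∈ A | ν z ≠ 0} ∩ ball (0 : ℂ) R) := by
    by_contra hcon
    push Not at hcon
    refine hAp.ne' ?_
    refine measure_mono_null (t := ⋃ R : ℕ, ({z ∈ A | ν z ≠ 0} ∩ ball (0 : ℂ) R)) (fun z hz => ?_)
      (measure_iUnion_null fun R => le_antisymm (hcon R) zero_le)
    obtain ⟨R, hR⟩ := exists_nat_gt ‖z‖
    rw [mem_iUnion]
    exact ⟨R, hz, by rw [mem_ball_zero_iff]; exact hR⟩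
  have hex : ∀ i, ∃ (C : ℝ) (μ : ℂ → ℂ), Measurable μ ∧ (∀ z, ‖μ z‖ ≤ C) ∧
      ∀ z w : ℂ, z.re ≤ w.re → z.im ≤ w.im → Rt z w ⊆ ball 0 ((R : ℝ) + 1) → RI (X i) z w = 2 * Complex.I * ∫ u in Rt z w, μ u := by
    intro i
    obtain ⟨C', l0, hC', hl0, hsq⟩ := sq_sp (hX i) (fun R' => by
      obtain ⟨C, h0, h1⟩ := hT i R'
      exact ⟨C, h0, fun x y z hx hy hz => h1 x trivial y trivial z trivial hx hy hz⟩) ((R : ℝ) + 1)
    obtain ⟨μ, h1, h2, h3⟩ := mu_all (R := (R : ℝ) + 1) (hX i) hC' hl0 hsq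
    exact ⟨C', μ, h1, h2, h3⟩
  choose Ci μ hμm hbi hri using hex
  have hμb : ∀ i z, ‖μ i z‖ ≤ 1 + ∑ j, |Ci j| := by
    intro i z
    have h1 : |Ci i| ≤ ∑ j, |Ci j| := Finset.single_le_sum (f := fun j => |Ci j|) (fun j _ => abs_nonneg _) (Finset.mem_univ i)
    have h2 := hbi i z
    have h3 := le_abs_self (Ci i)
    linarith
  have hC1 : 1 ≤ 1 + ∑ j, |Ci j| := by
    have : 0 ≤ ∑ j, |Ci j| := Finset.sum_nonneg fun j _ => abs_nonneg _
    linarith
  generalize 1 + ∑ j, |Ci j| = C at hμb hC1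
  -- `ν` is the combination
  have hsm : Measurable fun z => ∑ i, c i * μ i z := Finset.measurable_sum _ fun i _ => (hμm i).const_mul _
  have hsb : ∀ z, ‖∑ i, c i * μ i z‖ ≤ ∑ i, ‖c i‖ * C := fun z => by
    refine (norm_sum_le _ _).trans (Finset.sum_le_sum fun i _ => ?_)
    rw [norm_mul]
    exact mul_le_mul_of_nonneg_left (hμb i z) (norm_nonneg _)
  have hnull : volume {z ∈ ball (0 : ℂ) ((R : ℝ) + 1) | ν z - ∑ i, c i * μ i z ≠ 0} = 0 := by
    refine mu_off (X := fun _ => 0) (μ := fun z => ν z - ∑ i, c i * μ i z) continuous_const (R := (R : ℝ) + 1) (C := C0 + ∑ i, ‖c i‖ * C) (hm.sub hsm) (fun z => ?_)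
      (fun z w h1 h2 h3 => ?_) isOpen_ball Subset.rfl (differentiableOn_const _)
    · exact (norm_sub_le _ _).trans (add_le_add (hb z) (hsb z))
    · have e1 : RI (fun _ => 0) z w = 0 := by
        have h4 := ri_smul (X := fun _ : ℂ => (0 : ℂ)) 0 z w
        simp only [zero_mul] at h4
        exact h4
      have e2 : RI (Vp ν) z w = ∑ i, c i * RI (X i) z w := by
        rw [← ri_sum hX c h1 h2 Finset.univ]
        congr 1
        funext u
        exact hc u
      rw [(pot hm hb).2 z w h1 h2] at e2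
      have e3 : ∫ u in Rt z w, (ν u - ∑ i, c i * μ i u) = (∫ u in Rt z w, ν u) - ∑ i, c i * ∫ u in Rt z w, μ i u := by
        rw [integral_sub (int_on hm hb h3) (int_on hsm hsb h3), integral_finsetSum _ fun i _ => (int_on (hμm i) (hμb i) h3).const_mul _]
        congr 1
        exact Finset.sum_congr rfl fun i _ => integral_const_mul _ _
      have e4 : ∑ i, c i * RI (X i) z w = 2 * Complex.I * ∑ i, c i * ∫ u in Rt z w, μ i u := by
        rw [Finset.mul_sum]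
        refine Finset.sum_congr rfl fun i _ => ?_
        rw [hri i z w h1 h2 h3]
        ring
      rw [e4] at e2
      rw [e1, e3, mul_sub, e2, sub_self]
  -- the index
  obtain ⟨i0, hi0⟩ : ∃ i0, 0 < volume ({z ∈ A | ν z ≠ 0} ∩ ball (0 : ℂ) R ∩ {z | μ i0 z ≠ 0}) := by
    by_contra hcon
    push Not at hcon
    refine hR.ne' (measure_mono_null (t := {z ∈ ball (0 : ℂ) ((R : ℝ) + 1) | ν z - ∑ i, c i * μ i z ≠ 0} ∪
      ⋃ i, ({z ∈ A | ν z ≠ 0} ∩ ball (0 : ℂ) R ∩ {z | μ i z ≠ 0})) (fun z hz => ?_)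
      (measure_union_null hnull (measure_iUnion_null fun i => le_antisymm (hcon i) zero_le)))
    by_cases h1 : ν z - ∑ i, c i * μ i z = 0
    · right
      rw [mem_iUnion]
      by_contra h2
      push Not at h2
      apply hz.1.2
      rw [sub_eq_zero.1 h1]
      refine Finset.sum_eq_zero fun i _ => ?_
      have h3 : μ i z = 0 := by
        by_contra h4
        exact h2 i ⟨hz, h4⟩
      rw [h3, mul_zero]
    · left
      refine ⟨?_, h1⟩
      exact ball_subset_ball (by linarith) hz.2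
  have hμ0m : MeasurableSet {z | μ i0 z ≠ 0} := (hμm i0 (measurableSet_singleton 0)).compl
  have hSm : MeasurableSet (({z ∈ A | ν z ≠ 0} ∩ ball (0 : ℂ) R ∩ {z | μ i0 z ≠ 0}) \ {q}) :=
    (((hA.inter hνm).inter measurableSet_ball).inter hμ0m).diff (measurableSet_singleton q)
  have hSp : 0 < volume (({z ∈ A | ν z ≠ 0} ∩ ball (0 : ℂ) R ∩ {z | μ i0 z ≠ 0}) \ {q}) := by
    rw [measure_sdiff_null (measure_singleton q)]
    exact hi0
  obtain ⟨K, hKs, hK, hKp⟩ := hSm.exists_lt_isCompact hSp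
  have hKe : {z ∈ K | μ i0 z ≠ 0} = K := by
    ext z
    exact ⟨fun h => h.1, fun h => ⟨h, (hKs h).1.2⟩⟩
  obtain ⟨E, b0, hb0, hEc, hEK, hEp, hlb, hEt⟩ := eg_fam hμm hμb hK i0 (by rw [hKe]; exact hKp)
  refine ⟨C, μ, E, i0, b0, hC1, hμb, hb0, hEc, fun hq => (hKs (hEK hq)).2 rfl, hEp, hlb, ?_, fun z hz => (hKs (hEK hz)).1.1.1.1⟩
  intro ε hε
  have htz : ∀ i, ∃ η : ℝ, 0 < η ∧ ∀ (z : ℂ) (r : ℝ), 0 < r → ball z (2 * r) ⊆ ball 0 ((R : ℝ) + 1) →
      ∫ u in ball z (2 * r), ‖μ i u - μ i z‖ ≤ η * r ^ 2 → ∃ H : ℂ → ℂ, DifferentiableOn ℂ H (ball z r) ∧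
        ∀ w ∈ ball z r, ‖X i w - μ i z * (starRingEnd ℂ) (w - z) - H w‖ ≤ ε * r :=
    fun i => tz (hX i) (hμm i) (hμb i) (hri i) hε
  choose η hη htz using htz
  obtain ⟨η0, hη0, hη1⟩ := smi_min i0 η hη
  obtain ⟨ρ1, hρ1, hi⟩ := hEt (η0 / 4) (by positivity)
  refine ⟨min (ρ1 / 2) (1 / 2), lt_min (by positivity) (by positivity), ?_⟩
  intro i z hz r hr hrρ
  have hr2 : r < ρ1 / 2 := hrρ.trans_le (min_le_left _ _)
  have hr3 : r < 1 / 2 := hrρ.trans_le (min_le_right _ _)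
  refine htz i z r hr ?_ ?_
  · intro u hu
    have h1 : z ∈ ball (0 : ℂ) R := (hKs (hEK hz)).1.1.2
    rw [mem_ball_zero_iff] at h1 ⊢
    rw [mem_ball, dist_eq_norm] at hu
    have h2 := norm_add_le (u - z) z
    rw [sub_add_cancel] at h2
    linarith
  · have h1 := hi i z hz (2 * r) (by positivity) (by linarith)
    refine h1.trans ?_
    have h2 := hη1 i
    nlinarith [mul_le_mul_of_nonneg_right h2 (sq_nonneg r)]

end Pool.Agent.H66.IV
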