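import Pool.Agent.H66.IV.Gr
import Pool.Agent.H66.UP.KS1
import Pool.Agent.H44.RR.CNT

/-!
# LOC (MP_8f2e1c), Julia set = sphere: every invariant line field is a combination of the line fields of the directions

`vp_dir`: `b ^ 2 V (a / b) - (a' b - a b') V = R`, a polynomial of degree at most `2 d`, for the potential `V` of an invariant bounded `ν`. `van`: a continuous `W` with `W (g z) = g' z W z` off the poles is zero (repelling cycles are dense). `uni`: `V = ∑ R.coeff j V_j`.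
-/

set_option autoImplicit false

open Filter Topology Polynomial Metric Set MeasureTheory

namespace Pool.Agent.H66.IV

open Pool.Agent.H66.IL (Ct Rt RI ri_hol mor)
open Pool.Agent.H44.Fatou (rat rat_continuous rat_coe rat_coe_of_ne pt crit_coe)
open Pool.Agent.H32.BT Pool.Agent.H79.Eul Pool.Agent.H79.Par
open Pool.Agent.H35.EX Pool.Agent.H44.RR Pool.Agent.H56.HR Pool.Agent.H44.RC Pool.Agent.H47.RJ
open Pool.Agent.H47.NM Pool.Agent.H47.NN Pool.Agent.H44.ND Pool.Agent.H79.ES Pool.Agent.H44.RG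
open Pool.Agent.H44.CP Pool.Agent.H47.PS Pool.Agent.H64.NC
open Pool.Agent.H61.TT Pool.Agent.H57.CP
open Pool.Agent.H66.UP

/-- continuous and holomorphic off a countable set -/
theorem ent_ctb {G : ℂ → ℂ} (hG : Continuous G) {s : Set ℂ} (hs : s.Countable) (hd : ∀ z, z ∉ s → DifferentiableAt ℂ G z) :
    Differentiable ℂ G := fun z =>
  (mor (z0 := z) (r := 1) hG.continuousOn fun _ _ h1 h2 _ =>
    ri_hol h1 h2 hG.continuousOn hs fun u _ hu => hd u hu).differentiableAt (isOpen_ball.mem_nhds (mem_ball_self one_pos))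

private theorem log_sqrt {t : ℝ} (ht : 0 < t) : Real.log t ≤ 2 * √t := by
  have h1 := Real.log_le_sub_one_of_pos (Real.sqrt_pos.2 ht)
  have h2 : Real.log t = 2 * Real.log (√t) := by
    rw [Real.log_sqrt ht.le]
    ring
  rw [h2]
  linarith

/-- the potential at the poles -/
private theorem pole {a b : Polynomial ℂ} {V : ℂ → ℂ} {C : ℝ} (hC : 0 ≤ C) (h1 : ∀ x : ℂ, ‖x‖ ≤ 1 → ‖V x‖ ≤ C)
    (h2 : ∀ x : ℂ, 1 ≤ ‖x‖ → ‖V x‖ ≤ C * ‖x‖ * (1 + Real.log ‖x‖)) (z : ℂ) :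
    ‖b.eval z ^ 2 * V (gg a b z)‖ ≤ C * (‖b.eval z‖ ^ 2 + ‖a.eval z‖ * ‖b.eval z‖ + 2 * (‖a.eval z‖ * √(‖a.eval z‖ * ‖b.eval z‖))) := by
  by_cases hb : b.eval z = 0
  · rw [hb, zero_pow two_ne_zero, zero_mul, norm_zero]
    positivity
  have hb0 : 0 < ‖b.eval z‖ := norm_pos_iff.2 hb
  have hg : ‖gg a b z‖ = ‖a.eval z‖ / ‖b.eval z‖ := norm_div _ _
  rw [norm_mul, norm_pow]
  rcases le_total ‖gg a b z‖ 1 with h | h
  · calc ‖b.eval z‖ ^ 2 * ‖V (gg a b z)‖ ≤ ‖b.eval z‖ ^ 2 * C := mul_le_mul_of_nonneg_left (h1 _ h) (by positivity)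
      _ = C * ‖b.eval z‖ ^ 2 := by ring
      _ ≤ _ := by
        refine mul_le_mul_of_nonneg_left ?_ hC
        have : 0 ≤ ‖a.eval z‖ * ‖b.eval z‖ + 2 * (‖a.eval z‖ * √(‖a.eval z‖ * ‖b.eval z‖)) := by positivity
        linarith
  · have ha0 : 0 < ‖a.eval z‖ := by
      rw [hg, le_div_iff₀ hb0] at h
      linarith
    have h3 := h2 _ h
    have h4 := log_sqrt (show 0 < ‖gg a b z‖ by linarith)
    have h5 : ‖b.eval z‖ * √‖gg a b z‖ = √(‖a.eval z‖ * ‖b.eval z‖) := by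
      rw [eq_comm, Real.sqrt_eq_iff_mul_self_eq (by positivity) (by positivity)]
      have h6 : √‖gg a b z‖ * √‖gg a b z‖ = ‖gg a b z‖ := Real.mul_self_sqrt (norm_nonneg _)
      refine Eq.symm ?_
      calc ‖b.eval z‖ * √‖gg a b z‖ * (‖b.eval z‖ * √‖gg a b z‖) = ‖b.eval z‖ ^ 2 * (√‖gg a b z‖ * √‖gg a b z‖) := by ring
        _ = ‖a.eval z‖ * ‖b.eval z‖ := by
          rw [h6, hg]
          field_simp
    have hgb : ‖b.eval z‖ * ‖gg a b z‖ = ‖a.eval z‖ := by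
      rw [hg]
      field_simp
    calc ‖b.eval z‖ ^ 2 * ‖V (gg a b z)‖ ≤ ‖b.eval z‖ ^ 2 * (C * ‖gg a b z‖ * (1 + 2 * √‖gg a b z‖)) := by
          refine mul_le_mul_of_nonneg_left (h3.trans ?_) (by positivity)
          exact mul_le_mul_of_nonneg_left (by linarith) (by positivity)
      _ = C * ((‖b.eval z‖ * ‖gg a b z‖) * ‖b.eval z‖ + 2 * ((‖b.eval z‖ * ‖gg a b z‖) * (‖b.eval z‖ * √‖gg a b z‖))) := by ring
      _ = C * (‖a.eval z‖ * ‖b.eval z‖ + 2 * (‖a.eval z‖ * √(‖a.eval z‖ * ‖b.eval z‖))) := by rw [hgb, h5]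
      _ ≤ _ := by
        refine mul_le_mul_of_nonneg_left ?_ hC
        nlinarith [sq_nonneg ‖b.eval z‖]

theorem vp_dir {d : ℕ} {a b : Polynomial ℂ} (h : RatD d a b) {ν : ℂ → ℂ} (hm : Measurable ν) {C0 : ℝ} (hb : ∀ z, ‖ν z‖ ≤ C0)
    (hinv : ∀ᵐ z : ℂ, b.eval z ≠ 0 → ν (gg a b z) * (starRingEnd ℂ) (dg a b z) = ν z * dg a b z) :
    ∃ R : Polynomial ℂ, R.natDegree ≤ 2 * d ∧ ∀ z : ℂ, b.eval z ^ 2 * Vp ν (gg a b z) - (ww a b).eval z * Vp ν z = R.eval z := by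
  have hbn : b ≠ 0 := by
    intro hb
    have hcop := h.cop
    have hdeg := h.deg
    have hd := h.hd
    rw [hb, isCoprime_zero_right] at hcop
    rw [hb, natDegree_zero, natDegree_eq_zero_of_isUnit hcop] at hdeg
    simp at hdeg
    omega
  obtain ⟨hVc, hVr⟩ := pot hm hb
  obtain ⟨C, hC, g1, g2⟩ := vp_gr hb
  obtain ⟨C2, hC2, g3⟩ := vp_gr2 hb
  obtain ⟨U, hU⟩ : ∃ U : Set ℂ, U = {z : ℂ | b.eval z ≠ 0} := ⟨_, rfl⟩
  have hUo : IsOpen U := hU ▸ isOpen_ne_fun b.continuous continuous_const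
  have hdg : ∀ z ∈ U, HasDerivAt (gg a b) (dg a b z) z := fun z hz => by
    rw [hU] at hz
    exact hasDerivAt_gg hz
  have hF := inv_hol (f := gg a b) (V := Vp ν) (μ := ν) hUo (fun z hz => (hdg z hz).differentiableAt.differentiableWithinAt)
    hm hb hVc hVr (by
      filter_upwards [hinv] with z hz hzU
      rw [(hdg z hzU).deriv]
      refine hz ?_
      rw [hU] at hzU
      exact hzU)
  obtain ⟨G, hG⟩ : ∃ G : ℂ → ℂ, G = fun z => b.eval z ^ 2 * Vp ν (gg a b z) - (ww a b).eval z * Vp ν z := ⟨_, rfl⟩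
  have hGd : ∀ z, z ∉ (b.roots.toFinset : Set ℂ) → DifferentiableAt ℂ G z := by
    intro z hz
    have hzb : b.eval z ≠ 0 := by
      intro h0
      refine hz ?_
      rw [Finset.mem_coe, Multiset.mem_toFinset, mem_roots hbn]
      exact h0
    have hzU : z ∈ U := by rw [hU]; exact hzb
    have h1 : DifferentiableAt ℂ (fun z => b.eval z ^ 2 * (Vp ν (gg a b z) - deriv (gg a b) z * Vp ν z)) z :=
      (b.differentiable.differentiableAt.pow 2).mul (hF.differentiableAt (hUo.mem_nhds hzU))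
    refine h1.congr_of_eventuallyEq ?_
    filter_upwards [hUo.mem_nhds hzU] with u hu
    have hub : b.eval u ≠ 0 := by rw [hU] at hu; exact hu
    rw [hG, (hdg u hu).deriv]
    simp only
    unfold dg
    field_simp
  have hGc : Continuous G := by
    rw [hG]
    refine Continuous.sub ?_ ((ww a b).continuous.mul hVc)
    rw [continuous_iff_continuousAt]
    intro z
    by_cases hzb : b.eval z = 0
    · unfold ContinuousAt
      simp only [hzb]
      rw [zero_pow two_ne_zero, zero_mul, tendsto_zero_iff_norm_tendsto_zero]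
      have h1 : ContinuousAt (fun z => C * (‖b.eval z‖ ^ 2 + ‖a.eval z‖ * ‖b.eval z‖ + 2 * (‖a.eval z‖ * √(‖a.eval z‖ * ‖b.eval z‖)))) z := by
        have := a.continuous
        have := b.continuous
        fun_prop
      have h2 : Tendsto (fun z => C * (‖b.eval z‖ ^ 2 + ‖a.eval z‖ * ‖b.eval z‖ + 2 * (‖a.eval z‖ * √(‖a.eval z‖ * ‖b.eval z‖)))) (𝓝 z) (𝓝 0) := by
        have h3 := h1.tendsto
        rw [hzb, norm_zero] at h3
        simpa using h3
      exact squeeze_zero (fun _ => norm_nonneg _) (fun u => pole hC g1 g2 u) h2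
    · exact (b.continuous.continuousAt.pow 2).mul
        (ContinuousAt.comp (f := gg a b) (g := Vp ν) hVc.continuousAt (hasDerivAt_gg hzb).continuousAt)
  have hGe : Differentiable ℂ G := ent_ctb hGc (Finset.countable_toSet _) hGd
  -- growth
  have had : a.natDegree ≤ d := h.deg ▸ le_max_left _ _
  have hbd : b.natDegree ≤ d := h.deg ▸ le_max_right _ _
  obtain ⟨Ca, hCa, ga⟩ := pol_gr a had
  obtain ⟨Cb, hCb, gb⟩ := pol_gr b hbd
  obtain ⟨Cw, hCw, gw⟩ := pol_gr (ww a b) (ww_deg h)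
  have hgr : ∀ z, ‖G z‖ ≤ (C2 * (Cb ^ 2 + Ca ^ 2) + Cw * C2) * (1 + ‖z‖) ^ (2 * d) := by
    intro z
    have e1 : ‖b.eval z ^ 2 * Vp ν (gg a b z)‖ ≤ C2 * (‖b.eval z‖ ^ 2 + ‖a.eval z‖ ^ 2) := by
      rw [norm_mul, norm_pow]
      by_cases hzb : b.eval z = 0
      · rw [hzb, norm_zero]
        have : 0 ≤ C2 * ((0 : ℝ) ^ 2 + ‖a.eval z‖ ^ 2) := by positivity
        linarith
      have hb0 : 0 < ‖b.eval z‖ := norm_pos_iff.2 hzb
      calc ‖b.eval z‖ ^ 2 * ‖Vp ν (gg a b z)‖ ≤ ‖b.eval z‖ ^ 2 * (C2 * (1 + ‖gg a b z‖ ^ 2)) :=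
            mul_le_mul_of_nonneg_left (g3 _) (by positivity)
        _ = C2 * (‖b.eval z‖ ^ 2 + ‖a.eval z‖ ^ 2) := by
            unfold gg
            rw [norm_div]
            field_simp
    have hp : (1 : ℝ) ≤ 1 + ‖z‖ := by linarith [norm_nonneg z]
    have e2 : ‖b.eval z‖ ^ 2 ≤ Cb ^ 2 * (1 + ‖z‖) ^ (2 * d) := by
      calc ‖b.eval z‖ ^ 2 ≤ (Cb * (1 + ‖z‖) ^ d) ^ 2 := pow_le_pow_left₀ (norm_nonneg _) (gb z) 2
        _ = _ := by ring
    have e3 : ‖a.eval z‖ ^ 2 ≤ Ca ^ 2 * (1 + ‖z‖) ^ (2 * d) := by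
      calc ‖a.eval z‖ ^ 2 ≤ (Ca * (1 + ‖z‖) ^ d) ^ 2 := pow_le_pow_left₀ (norm_nonneg _) (ga z) 2
        _ = _ := by ring
    have e4 : ‖(ww a b).eval z * Vp ν z‖ ≤ Cw * C2 * (1 + ‖z‖) ^ (2 * d) := by
      rw [norm_mul]
      have hd := h.hd
      calc ‖(ww a b).eval z‖ * ‖Vp ν z‖ ≤ (Cw * (1 + ‖z‖) ^ (2 * d - 2)) * (C2 * (1 + ‖z‖) ^ 2) := by
            refine mul_le_mul (gw z) ((g3 z).trans ?_) (norm_nonneg _) (by positivity)
            refine mul_le_mul_of_nonneg_left ?_ hC2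
            nlinarith [norm_nonneg z]
        _ = Cw * C2 * ((1 + ‖z‖) ^ (2 * d - 2) * (1 + ‖z‖) ^ 2) := by ring
        _ = Cw * C2 * (1 + ‖z‖) ^ (2 * d) := by
            rw [← pow_add]
            congr 2
            omega
    rw [hG]
    calc ‖b.eval z ^ 2 * Vp ν (gg a b z) - (ww a b).eval z * Vp ν z‖ ≤ ‖b.eval z ^ 2 * Vp ν (gg a b z)‖ + ‖(ww a b).eval z * Vp ν z‖ :=
          norm_sub_le _ _
      _ ≤ C2 * (Cb ^ 2 * (1 + ‖z‖) ^ (2 * d) + Ca ^ 2 * (1 + ‖z‖) ^ (2 * d)) + Cw * C2 * (1 + ‖z‖) ^ (2 * d) :=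
          add_le_add (e1.trans (mul_le_mul_of_nonneg_left (add_le_add e2 e3) hC2)) e4
      _ = _ := by ring
  obtain ⟨R, hR, hz⟩ := ent_pol hGe hgr
  refine ⟨R, hR, fun z => ?_⟩
  rw [← hz z, hG]

/-- a continuous invariant vector field is zero -/
theorem van {d : ℕ} {v : E d} (hd : 2 ≤ d) (hcop : IsCoprime (pol v.1) (pol v.2))
    (hdeg : max (pol v.1).natDegree (pol v.2).natDegree = d) (hup : ¬ Up v) (hJ : JS (Rf v) = univ)
    (hi : Rf v OnePoint.infty = OnePoint.infty) {W : ℂ → ℂ} (hW : Continuous W)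
    (he : ∀ z : ℂ, (pol v.2).eval z ≠ 0 → W (gg (pol v.1) (pol v.2) z) = Pool.Agent.H61.TT.dg (pol v.1) (pol v.2) z * W z) :
    ∀ z, W z = 0 := by
  have hoff : ∀ {q : OnePoint ℂ} {N : ℕ}, 1 ≤ N → (Rf v)^[N] q = q → q ≠ OnePoint.infty →
      ∀ i : ℕ, (Rf v)^[i] q ≠ OnePoint.infty := by
    intro q N hN hq h i he
    obtain ⟨j, hj⟩ := orb_back hN hq i
    rw [he, Function.iterate_fixed hi] at hj
    exact h hj.symm
  have hcl : closure {z : ℂ | W z = 0} = {z : ℂ | W z = 0} := (isClosed_eq hW continuous_const).closure_eq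
  intro z
  show z ∈ {z : ℂ | W z = 0}
  rw [← hcl, mem_closure_iff_nhds]
  intro N hN
  obtain ⟨p, ⟨x, hxN, hxp⟩, n, hn, hp⟩ := Pool.Agent.H44.NR.per_dense hd hcop hdeg (x := (z : OnePoint ℂ)) (hJ ▸ mem_univ _)
    (OnePoint.isOpenEmbedding_coe.map_nhds_eq z ▸ image_mem_map hN)
  have hpi : p ≠ OnePoint.infty := by
    rw [← hxp]
    exact OnePoint.coe_ne_infty x
  obtain ⟨y, m, hc, hm, hy⟩ := mk_cyc hd hcop hdeg hup (hJ ▸ mem_univ p) hn hp (hoff hn hp hpi)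
  refine ⟨x, hxN, ?_⟩
  have hy0 : y 0 = x := by
    apply OnePoint.coe_injective
    rw [hy 0, hxp]
    rfl
  have hit : ∀ k ≤ n, W (y k) = (∏ i ∈ Finset.range k, Pool.Agent.H61.TT.dg (pol v.1) (pol v.2) (y i)) * W (y 0) := by
    intro k
    induction k with
    | zero => intro _; rw [Finset.prod_range_zero, one_mul]
    | succ k ih =>
      intro hk
      have h1 : gg (pol v.1) (pol v.2) (y k) = y (k + 1) := hc.step k (by omega)
      rw [← h1, he _ (hc.ne k (by omega)), ih (by omega), Finset.prod_range_succ]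
      ring
  have h1 := hit n le_rfl
  have h2 : ∏ i ∈ Finset.range n, Pool.Agent.H61.TT.dg (pol v.1) (pol v.2) (y i) = m := hc.mul
  rw [hc.per, h2, hy0] at h1
  have h3 : (m - 1) * W x = 0 := by rw [sub_mul, one_mul, ← h1, sub_self]
  rcases mul_eq_zero.1 h3 with h4 | h4
  · exfalso
    rw [sub_eq_zero.1 h4, norm_one] at hm
    exact lt_irrefl _ hm
  · exact h4

/-- the potential is a combination of the velocities -/
theorem uni {d : ℕ} {v : E d} (hd : 2 ≤ d) (hcop : IsCoprime (pol v.1) (pol v.2))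
    (hdeg : max (pol v.1).natDegree (pol v.2).natDegree = d) (hup : ¬ Up v) (hJ : JS (Rf v) = univ)
    (hi : Rf v OnePoint.infty = OnePoint.infty) {V : ℕ → ℂ → ℂ} (hV : ∀ j ≤ 2 * d, VelP (pol v.1) (pol v.2) (X ^ j) (V j))
    {ν : ℂ → ℂ} (hm : Measurable ν) {C0 : ℝ} (hb : ∀ z, ‖ν z‖ ≤ C0)
    (hinv : ∀ᵐ z : ℂ, (pol v.2).eval z ≠ 0 → ν (gg (pol v.1) (pol v.2) z) * (starRingEnd ℂ) (Pool.Agent.H61.TT.dg (pol v.1) (pol v.2) z) =
      ν z * Pool.Agent.H61.TT.dg (pol v.1) (pol v.2) z) :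
    ∃ c : ℕ → ℂ, ∀ z, Vp ν z = ∑ j ∈ Finset.range (2 * d + 1), c j * V j z := by
  obtain ⟨R, hR, hz⟩ := vp_dir ⟨hd, hcop, hdeg⟩ hm hb hinv
  refine ⟨fun j => R.coeff j, fun z => ?_⟩
  have hL := velp_lin hV hR
  have h1 := van hd hcop hdeg hup hJ hi (W := fun z => Vp ν z - ∑ j ∈ Finset.range (2 * d + 1), R.coeff j * V j z)
    ((pot hm hb).1.sub hL.1) (fun z hzb => ?_) z
  · exact sub_eq_zero.1 h1
  · have h2 := hz z
    have h3 := hL.2.1 z hzb
    simp only at h3 ⊢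
    rw [h3, ← h2]
    unfold Pool.Agent.H61.TT.dg
    field_simp
    ring

end Pool.Agent.H66.IV
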